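import Pool.Agent.TXL.Def2
import Pool.Agent.TWX.Fin
import Pool.Agent.ORA.Psi

/-!
Project TXL: degrees of the coordinates of the generator, and the grid of points.

The coordinates of the generator have total degree at most `deg n w`, so a nonzero image of a
polynomial of degree at most `D'` does not vanish at one of the parameter vectors with entries in
`{0, …, deg n w * D'}`, whose value is one of the points `pts`.
-/

set_option autoImplicit false

namespace Pool.Agent.TXL

open MvPolynomial
open Pool.Agent.FOR (Ps lev)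
open Pool.Agent.ORB (PhiP)
open Pool.Agent.ORA (cvx)
open Pool.Agent.TWX (crv2)

private theorem dg_tot (R : Type*) [CommSemiring R] (σ : Type*) :
    FOR.Dg (fun p : MvPolynomial σ R => p.totalDegree) where
  add := fun x y => totalDegree_add x y
  mul := fun x y => totalDegree_mul x y
  nat := fun n => by
    have h : ((n : ℕ) : MvPolynomial σ R) = C (n : R) := (map_natCast C n).symm
    show totalDegree ((n : ℕ) : MvPolynomial σ R) = 0
    rw [h]
    exact totalDegree_C _

private theorem sz_pow_le' (m : ℕ) : FOR.sz (lev m) ^ 240 ≤ 2 ^ 3840 * (m + 1) ^ 480 := by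
  refine (Nat.pow_le_pow_left (FOR.sz_lev_le m) 240).trans (le_of_eq ?_)
  rw [mul_pow, ← pow_mul, ← pow_mul]

private theorem tot_Ps (K : Type*) [Field K] {σ : Type*} (a b : σ) (L : ℕ) {i : ℕ}
    (hi : i < FOR.sz L) :
    (Ps L (X a) (X b) i : MvPolynomial σ K).totalDegree ≤ FOR.sz L ^ 240 + 1 := by
  have h := FOR.dg_Ps (dg_tot K σ) L i hi (X a) (X b)
  refine h.trans ?_
  have h0 : (X a : MvPolynomial σ K).totalDegree = 1 := totalDegree_X a
  have h1 : (X b : MvPolynomial σ K).totalDegree = 1 := totalDegree_X b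
  show FOR.sz L ^ 240 * (X a : MvPolynomial σ K).totalDegree +
    (X b : MvPolynomial σ K).totalDegree ≤ _
  rw [h0, h1, mul_one]

private theorem tot_paeval {K : Type*} [Field K] {τ : Type*} (c : τ) (q : Polynomial K) :
    (Polynomial.aeval (X c : MvPolynomial τ K) q).totalDegree ≤ q.natDegree := by
  rw [Polynomial.aeval_eq_sum_range]
  refine totalDegree_finsetSum_le fun i hi => ?_
  refine (totalDegree_smul_le _ _).trans ?_
  rw [totalDegree_X_pow]
  have := Finset.mem_range.1 hi
  omega

private theorem cv_deg_le {K : Type*} [Field K] (M i : ℕ) : (ORB.cv K M i).natDegree ≤ M := by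
  unfold ORB.cv
  refine Polynomial.natDegree_sum_le_of_forall_le _ _ fun r hr => ?_
  refine (Polynomial.natDegree_C_mul_X_pow_le _ _).trans ?_
  exact (Finset.mem_Icc.1 hr).2

theorem deg_coord (F : Type*) [Field F] (n w c : ℕ) (i : Fin n) :
    (PhiP (cvx F n (4 * n)) (crv2 F n (lev (max n w))) c (X i)).totalDegree ≤ deg n w := by
  have hi : (i : ℕ) < FOR.sz (lev (max n w)) :=
    i.2.trans_le ((le_max_left _ _).trans (FOR.le_sz_lev _))
  have h1 := sz_pow_le' (max n w)
  have h2 : (max n w + 1) ^ 480 ≤ (n + w + 1) ^ 480 := by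
    refine Nat.pow_le_pow_left ?_ _
    have := max_le (Nat.le_add_right n w) (Nat.le_add_left w n)
    omega
  have h3 := Nat.mul_le_mul_left (2 ^ 3840) h2
  have h4 : FOR.sz (lev (max n w)) ^ 240 + 4 * n + 2 ≤ deg n w := by
    unfold deg
    have h5 := h1.trans h3
    omega
  refine le_trans ?_ h4
  unfold PhiP
  rw [aeval_X]
  refine (totalDegree_add _ _).trans (max_le ?_ ?_)
  · refine (totalDegree_rename_le _ _).trans ?_
    unfold crv2
    have h5 := tot_Ps F (3 : Fin 5) 4 _ hi
    have h6 : (X 2 : MvPolynomial (Fin 5) F).totalDegree = 1 := totalDegree_X _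
    refine (totalDegree_add _ _).trans (max_le ?_ ?_)
    · refine (tot_Ps F (0 : Fin 5) 1 _ hi).trans ?_
      omega
    · refine (totalDegree_mul _ _).trans ?_
      omega
  · refine totalDegree_finsetSum_le fun l _ => ?_
    refine (totalDegree_mul _ _).trans ?_
    have h6 : (X (Sum.inr (Sum.inl l)) :
        MvPolynomial (Fin 5 ⊕ (Fin c ⊕ Fin c)) F).totalDegree = 1 := totalDegree_X _
    have h7 := (tot_paeval (K := F) (Sum.inr (Sum.inr l) : Fin 5 ⊕ (Fin c ⊕ Fin c))
      (cvx F n (4 * n) i)).trans (cv_deg_le (K := F) (4 * n) ((i : ℕ) + 1))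
    rw [h6]
    omega

private theorem eval_val (F : Type*) [Field F] (n L c : ℕ) (s : Fin 5 ⊕ (Fin c ⊕ Fin c) → ℕ)
    (i : Fin n) :
    ORB.val (cvx F n (4 * n)) (fun v => eval (fun a => ((s (Sum.inl a) : ℕ) : F)) (crv2 F n L v))
      (fun l => ((s (Sum.inr (Sum.inl l)) : ℕ) : F)) (fun l => ((s (Sum.inr (Sum.inr l)) : ℕ) : F)) i
      = ((gen n L c (fun a => s (Sum.inl a)) (fun l => s (Sum.inr (Sum.inl l)))
        (fun l => s (Sum.inr (Sum.inr l))) i : ℕ) : F) := by
  have h1 : eval (fun a => ((s (Sum.inl a) : ℕ) : F)) (crv2 F n L i) =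
      ((crvN L (fun a => s (Sum.inl a)) (i : ℕ) : ℕ) : F) := by
    unfold crv2 crvN
    have e1 := FOR.map_Ps (eval (fun a : Fin 5 => ((s (Sum.inl a) : ℕ) : F))) L
    have e2 := FOR.map_Ps (Nat.castRingHom F) L
    simp only [eq_natCast] at e2
    rw [map_add, map_mul, e1, e1, Nat.cast_add, Nat.cast_mul, e2, e2]
    simp only [eval_X]
  unfold ORB.val gen cvx
  rw [Nat.cast_add, Nat.cast_sum, ← h1]
  refine congrArg₂ (· + ·) rfl (Finset.sum_congr rfl fun l _ => ?_)
  rw [Nat.cast_mul, ← ORB.cv_eval]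

theorem grid {F : Type*} [Field F] [CharZero F] {n w c D' : ℕ} {g : MvPolynomial (Fin n) F}
    (hg : PhiP (cvx F n (4 * n)) (crv2 F n (lev (max n w))) c g ≠ 0) (hD : g.totalDegree ≤ D') :
    ∃ x ∈ pts n (lev (max n w)) c (deg n w * D'), eval (fun i => ((x i : ℕ) : F)) g ≠ 0 := by
  obtain ⟨s, hs, hne⟩ := TWX.small_ne hg (B := deg n w * D') (by
    rw [← ORB.aeval_PhiP_X]
    refine (FOR.aeval_le (dg_tot F _) (fun a => ?_) g D' (deg n w) hD _
      (fun v => deg_coord F n w c v)).trans (le_of_eq (Nat.mul_comm _ _))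
    show totalDegree (algebraMap F (MvPolynomial _ F) a) = 0
    rw [algebraMap_eq]
    exact totalDegree_C _)
  rw [ORB.eval_PhiP] at hne
  refine ⟨gen n (lev (max n w)) c (fun a => s (Sum.inl a)) (fun l => s (Sum.inr (Sum.inl l)))
    (fun l => s (Sum.inr (Sum.inr l))), ?_, ?_⟩
  · unfold pts
    refine Finset.mem_image.2 ⟨(fun a => s (Sum.inl a),
      (fun l => s (Sum.inr (Sum.inl l)), fun l => s (Sum.inr (Sum.inr l)))), ?_, rfl⟩
    simp only [Finset.mem_product, Finset.mem_range, Fintype.mem_piFinset, Nat.lt_succ_iff]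
    exact ⟨fun _ => hs _, fun _ => hs _, fun _ => hs _⟩
  · have h2 := funext (fun i => eval_val F n (lev (max n w)) c s i)
    rw [h2] at hne
    exact hne

theorem card_pts (n L c B : ℕ) : (pts n L c B).card ≤ (B + 1) ^ (5 + 2 * c) := by
  classical
  unfold pts
  refine Finset.card_image_le.trans ?_
  rw [Finset.card_product, Finset.card_product, Fintype.card_piFinset, Fintype.card_piFinset]
  simp only [Finset.card_range, Finset.prod_const, Finset.card_univ, Fintype.card_fin]
  rw [← pow_add, ← pow_add]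
  exact le_of_eq (by congr 1; ring)

end Pool.Agent.TXL
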