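import Pool.Agent.TXL.Def2
import Pool.Agent.FOR.Bit

/-!
MODULE TXL-Bit.  The points have polynomial bit length.
-/

set_option autoImplicit false

namespace Pool.Agent.TXL

open Pool.Agent.FOR (Ps lev)
open Pool.Agent.ORB (AA)

private theorem bit_AA {n B W i t : ℕ} (hi : i < n) (ht : t ≤ B) (hW : 2 * B + 4 * n + 2 ≤ W) :
    AA (4 * n) (i + 1) t ≤ W ^ (12 * n + 1) := by
  have hWp : 0 < W := by omega
  have h1 : (i + 1) * t ≤ W ^ 2 := by
    rw [pow_two]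
    exact Nat.mul_le_mul (by omega) (by omega)
  have h2 : (4 * n).factorial ≤ W ^ (4 * n) :=
    (Nat.factorial_le_pow (4 * n)).trans (Nat.pow_le_pow_left (by omega) _)
  unfold AA
  calc ∑ r ∈ Finset.Icc 1 (4 * n), (4 * n).factorial / r * ((i + 1) * t) ^ r
      ≤ ∑ _r ∈ Finset.Icc 1 (4 * n), W ^ (4 * n) * (W ^ 2) ^ (4 * n) := by
        refine Finset.sum_le_sum fun r hr => ?_
        refine Nat.mul_le_mul ((Nat.div_le_self _ _).trans h2) ?_
        exact (Nat.pow_le_pow_left h1 r).trans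
          (Nat.pow_le_pow_right (pow_pos hWp 2) (Finset.mem_Icc.1 hr).2)
    _ = 4 * n * (W ^ (4 * n) * (W ^ 2) ^ (4 * n)) := by
        rw [Finset.sum_const, Nat.card_Icc, smul_eq_mul, Nat.add_sub_cancel]
    _ ≤ W * (W ^ (4 * n) * (W ^ 2) ^ (4 * n)) := Nat.mul_le_mul_right _ (by omega)
    _ = W ^ (12 * n + 1) := by
        rw [← pow_mul, ← pow_add, ← pow_succ']
        congr 1
        ring

theorem bit_pts (n w c B : ℕ) (x : Fin n → ℕ) (hx : x ∈ pts n (lev (max n w)) c B) (i : Fin n) :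
    x i ≤ (2 * B + c + 4 * n + 2) ^ (2 ^ 4000 * (n + w + 1) ^ 500 + 12 * n + 3) := by
  unfold pts at hx
  obtain ⟨q, hq, rfl⟩ := Finset.mem_image.1 hx
  rw [Finset.mem_product, Finset.mem_product, Fintype.mem_piFinset, Fintype.mem_piFinset,
    Fintype.mem_piFinset] at hq
  obtain ⟨h1, h2, h3⟩ := hq
  have h1' : ∀ j, q.1 j ≤ B := fun j => Nat.lt_succ_iff.1 (Finset.mem_range.1 (h1 j))
  have h2' : ∀ j, q.2.1 j ≤ B := fun j => Nat.lt_succ_iff.1 (Finset.mem_range.1 (h2 j))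
  have h3' : ∀ j, q.2.2 j ≤ B := fun j => Nat.lt_succ_iff.1 (Finset.mem_range.1 (h3 j))
  show gen n (lev (max n w)) c q.1 q.2.1 q.2.2 i ≤ _
  unfold gen crvN
  have hsz := Pool.Agent.FOR.le_sz_lev (max n w)
  have hb : (i : ℕ) < Pool.Agent.FOR.sz (lev (max n w)) := by
    have := le_max_left n w
    have := i.2
    omega
  have h4 := Pool.Agent.FOR.vb_Ps (lev (max n w)) i hb (q.1 0) (q.1 1)
  have h5 := Pool.Agent.FOR.vb_Ps (lev (max n w)) i hb (q.1 3) (q.1 4)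
  obtain ⟨W, hW⟩ : ∃ W, W = 2 * B + c + 4 * n + 2 := ⟨_, rfl⟩
  rw [← hW]
  have hsz2 : Pool.Agent.FOR.sz (lev (max n w)) ^ 250 ≤ 2 ^ 4000 * (n + w + 1) ^ 500 := by
    refine (Nat.pow_le_pow_left (Pool.Agent.FOR.sz_lev_le (max n w)) 250).trans ?_
    rw [mul_pow, ← pow_mul, ← pow_mul]
    refine Nat.mul_le_mul_left _ (Nat.pow_le_pow_left ?_ _)
    have := max_le (Nat.le_add_right n w) (Nat.le_add_left w n)
    omega
  set s := Pool.Agent.FOR.sz (lev (max n w)) ^ 250 with hs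
  have hle : ∀ t e : ℕ, t ≤ B → e ≤ B → (t + e + 2) ^ s ≤ W ^ s := fun t e ht he =>
    Nat.pow_le_pow_left (by omega) _
  have h7 : Ps (lev (max n w)) (q.1 0) (q.1 1) (i : ℕ) ≤ W ^ s := by
    have := hle _ _ (h1' 0) (h1' 1)
    omega
  have h8 : Ps (lev (max n w)) (q.1 3) (q.1 4) (i : ℕ) ≤ W ^ s := by
    have := hle _ _ (h1' 3) (h1' 4)
    omega
  have hWp : 0 < W := by omega
  have h6 : ∑ l, q.2.1 l * AA (4 * n) ((i : ℕ) + 1) (q.2.2 l) ≤ c * W ^ (12 * n + 2) := by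
    calc ∑ l, q.2.1 l * AA (4 * n) ((i : ℕ) + 1) (q.2.2 l)
        ≤ ∑ _l : Fin c, W * W ^ (12 * n + 1) := by
          refine Finset.sum_le_sum fun l _ => Nat.mul_le_mul ?_ (bit_AA i.2 (h3' l) (by omega))
          have := h2' l
          omega
      _ = c * W ^ (12 * n + 2) := by
          rw [Finset.sum_const, Finset.card_univ, Fintype.card_fin, smul_eq_mul, ← pow_succ']
  have e1 : W ^ s ≤ W ^ (s + (12 * n + 2)) := Nat.pow_le_pow_right hWp (Nat.le_add_right _ _)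
  have e2 : W ^ (12 * n + 2) ≤ W ^ (s + (12 * n + 2)) :=
    Nat.pow_le_pow_right hWp (Nat.le_add_left _ _)
  calc Ps (lev (max n w)) (q.1 0) (q.1 1) (i : ℕ) +
        q.1 2 * Ps (lev (max n w)) (q.1 3) (q.1 4) (i : ℕ) +
        ∑ l, q.2.1 l * AA (4 * n) ((i : ℕ) + 1) (q.2.2 l)
      ≤ W ^ (s + (12 * n + 2)) + B * W ^ (s + (12 * n + 2)) + c * W ^ (s + (12 * n + 2)) := by
        refine Nat.add_le_add (Nat.add_le_add (h7.trans e1)
          (Nat.mul_le_mul (h1' 2) (h8.trans e1))) (h6.trans (Nat.mul_le_mul_left _ e2))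
    _ = (1 + B + c) * W ^ (s + (12 * n + 2)) := by ring
    _ ≤ W * W ^ (s + (12 * n + 2)) := Nat.mul_le_mul_right _ (by omega)
    _ = W ^ (s + 12 * n + 3) := by
        rw [← pow_succ']
        congr 1
    _ ≤ W ^ (2 ^ 4000 * (n + w + 1) ^ 500 + 12 * n + 3) :=
        Nat.pow_le_pow_right hWp (by omega)

end Pool.Agent.TXL
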