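import Pool.Agent.TXL.Defs
import Pool.Agent.CLK.Defs

/-!
Project TXL (MP_e2be99_lc): the class of limits and the points.  `Circ` is that of `Pool.Agent.CWR`,
`szK`, `EtotK` those of `Pool.Agent.CLK`, `AA` that of `Pool.Agent.ORB`.
-/

set_option autoImplicit false

namespace Pool.Agent.TXL

open MvPolynomial
open Pool.Agent.FOR (Ps lev)
open Pool.Agent.ORB (AA)
open Pool.Agent.CWR (Circ)
open Pool.Agent.CLK (szK EtotK)

/-- `P` is the image, under a local homomorphism `O → F` from a valuation ring `O` to `F`, of a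
polynomial `h` over `O` which is algebraic over `K(T_1, ..., T_N)`, `K` the fraction field of `O`; the
`T_i` are formulas of depth `Δ` over leaves as above, at most `k` of them algebraically independent. -/
def LimitLeaves.{u, v, x} (n κ k w r c D Δ : ℕ) {F : Type x} [Field F]
    (P : MvPolynomial (Fin n) F) : Prop :=
  ∃ (O : Type u) (_ : CommRing O) (_ : IsDomain O) (_ : ValuationRing O) (K : Type v) (_ : Field K)
    (_ : Algebra O K) (_ : IsFractionRing O K) (res : O →+* F) (_ : IsLocalHom res)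
    (β : ℕ → Option (Fin n → ℕ)) (N : ℕ)
    (T : Fin N → MvPolynomial (Fin n) K) (h : MvPolynomial (Fin n) O),
    (∀ i, Circ κ w β (Leaf r c D) Δ (T i)) ∧
    (∀ b : Finset (Fin N), AlgebraicIndepOn K T (b : Set (Fin N)) → b.card ≤ k) ∧
    IsAlgebraic (Algebra.adjoin K (Set.range T)) (MvPolynomial.map (algebraMap O K) h) ∧
    P = MvPolynomial.map res h

/-- `M = szK κ k w Δ`, `p = 3 Δ + 1`. -/
def rkT (κ k w r c D Δ : ℕ) : ℕ := rk (szK κ k w Δ) (3 * Δ + 1) r c D

/-- The points `Ps_i(s_0, s_1) + s_2 Ps_i(s_3, s_4) + ∑_l y_l A_i(u_l)`, where `A_i = AA (4 n) (i + 1)`. -/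
def gen (n L c : ℕ) (s : Fin 5 → ℕ) (y u : Fin c → ℕ) (i : Fin n) : ℕ :=
  crvN L s i + ∑ l, y l * AA (4 * n) (i + 1) (u l)

/-- Bound for the total degree of the coordinates of the generator. -/
def deg (n m : ℕ) : ℕ := 2 ^ 3840 * (n + m + 1) ^ 480 + 4 * n + 2

/-- All points of the generator with parameters in `{0, …, B}`. -/
def pts (n L c B : ℕ) : Finset (Fin n → ℕ) :=
  ((Fintype.piFinset fun _ : Fin 5 => Finset.range (B + 1)) ×ˢ
    ((Fintype.piFinset fun _ : Fin c => Finset.range (B + 1)) ×ˢ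
      (Fintype.piFinset fun _ : Fin c => Finset.range (B + 1)))).image
    fun a => gen n L c a.1 a.2.1 a.2.2

/-- The points. -/
def points (n κ k w r c D Δ D' : ℕ) : Finset (Fin n → ℕ) :=
  pts n (lev (max n (rkT κ k w r c D Δ))) (2 + EtotK κ k w Δ) (deg n (rkT κ k w r c D Δ) * D')

end Pool.Agent.TXL
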