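import Pool.Agent.TXL.Def2
import Pool.Agent.TWA.CutA

/-!
MODULE TXL-Ex.  Examples: the border of sums of `k` products of sums of univariate polynomials.
-/

set_option autoImplicit false

namespace Pool.Agent.TXL

open MvPolynomial
open Pool.Agent.AOI (Cut Cuts)
open Pool.Agent.CWR (Circ)

theorem cuts_univ {K : Type*} [Field K] {n : ℕ} (f : Fin n → MvPolynomial (Fin n) K)
    (hf : ∀ v, (f v).vars ⊆ {v}) : Cuts 2 (∑ v, f v) := by
  classical
  intro S
  have hs : ∀ T : Finset (Fin n), (∑ v ∈ T, f v).vars ⊆ T := by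
    intro T
    refine (vars_sum_subset T f).trans ?_
    intro x hx
    obtain ⟨v, hv, hx⟩ := Finset.mem_biUnion.1 hx
    have := hf v hx
    rw [Finset.mem_singleton] at this
    rw [this]
    exact hv
  refine ⟨![∑ v ∈ S, f v, 1], ![1, ∑ v ∈ Sᶜ, f v], ?_, ?_, ?_⟩
  · intro k
    fin_cases k
    · exact hs S
    · show (1 : MvPolynomial (Fin n) K).vars ⊆ S
      rw [vars_one]
      exact Finset.empty_subset _
  · intro k
    fin_cases k
    · show (1 : MvPolynomial (Fin n) K).vars ⊆ Sᶜ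
      rw [vars_one]
      exact Finset.empty_subset _
    · exact hs Sᶜ
  · rw [Fin.sum_univ_two]
    show ∑ v, f v = (∑ v ∈ S, f v) * 1 + 1 * ∑ v ∈ Sᶜ, f v
    rw [mul_one, one_mul, Finset.sum_add_sum_compl]

theorem fac_of_cuts {K : Type*} [Field K] {n c D : ℕ} (hc : 0 < c) (hD : 0 < D)
    {g : MvPolynomial (Fin n) K} (hg : Cuts c g) : Fac c D g := by
  refine ⟨X ⟨0, hc⟩, fun _ => g, ?_, fun _ => hg, ?_⟩
  · rw [totalDegree_X]
    exact hD
  · rw [aeval_X]

/-- A product of sums of univariate polynomials is a leaf. -/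
theorem leaf_prod {K : Type*} [Field K] {n D s : ℕ}
    (f : Fin s → Fin n → MvPolynomial (Fin n) K) (hf : ∀ j v, (f j v).vars ⊆ {v})
    (hd : (∏ j, ∑ v, f j v).totalDegree ≤ D) (hD : 0 < D) : Leaf 1 2 D (∏ j, ∑ v, f j v) := by
  refine ⟨hd, s, 1, fun j => ∑ v, f j v, fun S => Pool.Agent.AOI.Cut.one, fun j => ?_, ?_⟩
  · exact fac_of_cuts (by omega) hD (cuts_univ _ (hf j))
  · rw [one_mul]

/-- The border of sums of `k` leaves. -/
theorem border_sum.{x} {F : Type x} [Field F] {n k r c D : ℕ} (κ w : ℕ)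
    (T : Fin k → MvPolynomial (Fin n) (LaurentSeries F)) (hT : ∀ i, Leaf r c D (T i))
    (h : MvPolynomial (Fin n) (PowerSeries F))
    (hh : MvPolynomial.map (algebraMap (PowerSeries F) (LaurentSeries F)) h = ∑ i, T i) :
    LimitLeaves.{x, x, x} n κ k w r c D 0
      (MvPolynomial.map (PowerSeries.constantCoeff (R := F)) h) := by
  refine ⟨PowerSeries F, inferInstance, inferInstance, inferInstance, LaurentSeries F, inferInstance,
    inferInstance, inferInstance, PowerSeries.constantCoeff,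
    ⟨fun _ ha => PowerSeries.isUnit_iff_constantCoeff.2 ha⟩, fun _ => none, k, T, h,
    fun i => Circ.leaf (hT i), fun b _ => ?_, ?_, rfl⟩
  · have := Finset.card_le_univ b
    rwa [Fintype.card_fin] at this
  · rw [hh]
    have h1 : ∑ i, T i ∈ Algebra.adjoin (LaurentSeries F) (Set.range T) :=
      Subalgebra.sum_mem _ fun i _ => Algebra.subset_adjoin ⟨i, rfl⟩
    exact isAlgebraic_algebraMap (⟨∑ i, T i, h1⟩ : Algebra.adjoin (LaurentSeries F) (Set.range T))

end Pool.Agent.TXL
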