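import Pool.Agent.TXL.Num
import Pool.Agent.TXL.Def2
import Pool.Agent.CLK.CrC

/-!
MODULE TXL-Core.  Limits are not killed by the generator.
-/

set_option autoImplicit false

namespace Pool.Agent.TXL

open MvPolynomial
open Pool.Agent.FOR (Ps lev)
open Pool.Agent.ORB (pd Dc PhiP)
open Pool.Agent.ORA (cvx Psi)
open Pool.Agent.CWR (Circ)
open Pool.Agent.CLK (szK EtotK)
open Pool.Agent.CLO (RF rd Pres H1c)
open Pool.Agent.TWX (crv2)

private theorem det_shift {n : ℕ} {O : Type*} [CommRing O] (b : Fin n → O) :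
    (Matrix.of fun i j => pderiv i (X j + C (b j) : MvPolynomial (Fin n) O)).det = C 1 := by
  have h : (Matrix.of fun i j => pderiv i (X j + C (b j) : MvPolynomial (Fin n) O)) =
      (1 : Matrix (Fin n) (Fin n) (MvPolynomial (Fin n) O)) := by
    ext1 i j
    rw [Matrix.of_apply, map_add, pderiv_C, add_zero, pderiv_X, Matrix.one_apply, Pi.single_apply]
    by_cases hij : i = j
    · rw [if_pos hij, if_pos hij.symm]
    · rw [if_neg hij, if_neg (Ne.symm hij)]
  rw [h, Matrix.det_one, map_one]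

private theorem eval_shift {n : ℕ} {F : Type*} [Field F] (x b : Fin n → F)
    (P : MvPolynomial (Fin n) F) :
    eval x (aeval (fun i => X i + C (b i)) P) = eval (fun i => x i + b i) P := by
  induction P using MvPolynomial.induction_on with
  | C a => rw [aeval_C, algebraMap_eq, eval_C, eval_C]
  | add p q hp hq => rw [map_add, map_add, hp, hq, map_add]
  | mul_X p i hp => rw [map_mul, map_mul, hp, aeval_X, map_mul, map_add, eval_X, eval_X, eval_C]

theorem core {n : ℕ} {O : Type*} [CommRing O] [IsDomain O] [ValuationRing O] {K : Type*} [Field K]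
    [Algebra O K] [IsFractionRing O K] [CharZero (RF O)] (κ k w r c D Δ : ℕ)
    (β : ℕ → Option (Fin n → ℕ)) {N : ℕ} (T : Fin N → MvPolynomial (Fin n) K)
    (hT : ∀ i, Circ κ w β (Leaf r c D) Δ (T i))
    (htr : ∀ b : Finset (Fin N), AlgebraicIndepOn K T (b : Set (Fin N)) → b.card ≤ k)
    (h : MvPolynomial (Fin n) O)
    (halg : IsAlgebraic (Algebra.adjoin K (Set.range T)) (MvPolynomial.map (algebraMap O K) h))
    (h0 : rd O h ≠ 0) :
    ∃ s : Fin 5 → ℕ, PhiP (cvx (RF O) n (4 * n)) (fun _ => (0 : MvPolynomial (Fin 0) (RF O)))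
      (2 + EtotK κ k w Δ) (aeval (fun i : Fin n =>
        X i + C (((crvN (lev (max n (rkT κ k w r c D Δ))) s (i : ℕ) : ℕ) : RF O))) (rd O h)) ≠ 0 := by
  obtain ⟨A, hA, hL, hA2⟩ := circ_fin' T hT
  obtain ⟨s, hs⟩ := exists_h1c (O := O) hA hL (szK κ k w Δ) (3 * Δ)
  refine ⟨s, ?_⟩
  have h1 := CLK.circ_hitC (K := K) _ (1 : O) isUnit_one (det_shift _) (4 * n)
    (Pool.Agent.ORA.linearIndependent_cvx _ (by omega)) (𝓛 := A) (hs (4 * n) 2) T hA2 htr
    (MvPolynomial.map (algebraMap O K) h) halg h 1 one_ne_zero (one_smul _ _).symm h0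
  rw [Pool.Agent.ORA.Psi_apply] at h1
  have e : (fun j : Fin n => rd O (X j + C (((crvN (lev (max n (rk (szK κ k w Δ) (3 * Δ + 1) r c D)))
      s (j : ℕ) : ℕ) : O)))) = fun i : Fin n =>
        X i + C (((crvN (lev (max n (rkT κ k w r c D Δ))) s (i : ℕ) : ℕ) : RF O)) := by
    funext i
    rw [map_add, map_X, map_C, map_natCast]
    rfl
  rw [e] at h1
  exact h1

theorem limit_hit.{u, v, x} {n : ℕ} (κ k w r c D Δ : ℕ) {F : Type x} [Field F] [CharZero F]
    (P : MvPolynomial (Fin n) F) (hP : LimitLeaves.{u, v, x} n κ k w r c D Δ P) (hP0 : P ≠ 0) :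
    PhiP (cvx F n (4 * n)) (crv2 F n (lev (max n (rkT κ k w r c D Δ)))) (2 + EtotK κ k w Δ) P ≠
      0 := by
  obtain ⟨O, _, _, _, K, _, _, _, res, _, β, N, T, h, hT, htr, halg, rfl⟩ := hP
  have hres : (IsLocalRing.ResidueField.lift res).comp (IsLocalRing.residue O) = res :=
    RingHom.ext fun x => IsLocalRing.ResidueField.lift_residue_apply res x
  have : CharZero (RF O) := (IsLocalRing.ResidueField.lift res).charZero
  have h1 : MvPolynomial.map res h =
      MvPolynomial.map (IsLocalRing.ResidueField.lift res) (rd O h) := by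
    rw [MvPolynomial.map_map, hres]
  have h2 : rd O h ≠ 0 := by
    intro h3
    apply hP0
    rw [h1, h3, map_zero]
  obtain ⟨s, hs⟩ := core (K := K) κ k w r c D Δ β T hT htr h halg h2
  have h3 := CLO.PhiP_map (IsLocalRing.ResidueField.lift res) _ _ _ hs
  rw [CLO.map_aeval, ← h1] at h3
  have e : (fun j : Fin n => MvPolynomial.map (IsLocalRing.ResidueField.lift res)
      (X j + C (((crvN (lev (max n (rkT κ k w r c D Δ))) s (j : ℕ) : ℕ) : RF O)))) =
      fun i : Fin n => X i + C (((crvN (lev (max n (rkT κ k w r c D Δ))) s (i : ℕ) : ℕ) : F)) := by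
    funext i
    rw [map_add, map_X, map_C, map_natCast]
  rw [e] at h3
  obtain ⟨y, hy⟩ := Pool.Agent.ORB.exists_eval_ne_zero h3
  rw [Pool.Agent.ORB.eval_PhiP] at hy
  refine Pool.Agent.ORB.PhiP_ne_zero _ _ _ _ (fun j => (s j : F))
    (fun l => y (Sum.inr (Sum.inl l))) (fun l => y (Sum.inr (Sum.inr l))) ?_
  rw [eval_shift] at hy
  have e2 : (fun i : Fin n => Pool.Agent.ORB.val (cvx F n (4 * n))
      (fun _ : Fin n => eval (fun i => y (Sum.inl i)) (0 : MvPolynomial (Fin 0) F))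
      (fun l => y (Sum.inr (Sum.inl l))) (fun l => y (Sum.inr (Sum.inr l))) i +
      ((crvN (lev (max n (rkT κ k w r c D Δ))) s (i : ℕ) : ℕ) : F)) =
      Pool.Agent.ORB.val (cvx F n (4 * n))
        (fun v => eval (fun j => (s j : F)) (crv2 F n (lev (max n (rkT κ k w r c D Δ))) v))
        (fun l => y (Sum.inr (Sum.inl l))) (fun l => y (Sum.inr (Sum.inr l))) := by
    funext i
    unfold Pool.Agent.ORB.val
    beta_reduce
    rw [crvN_cast, map_zero, zero_add, add_comm]
  rw [e2] at hy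
  exact hy

theorem limit_prod.{u, v, x} {n m : ℕ} (κ k w r c D Δ : ℕ) {F : Type x} [Field F] [CharZero F]
    (P : Fin m → MvPolynomial (Fin n) F)
    (hP : ∀ j, P j ≠ 0 ∧ LimitLeaves.{u, v, x} n κ k w r c D Δ (P j)) (g : MvPolynomial (Fin n) F)
    (hg : g ∣ ∏ j, P j) :
    PhiP (cvx F n (4 * n)) (crv2 F n (lev (max n (rkT κ k w r c D Δ)))) (2 + EtotK κ k w Δ) g ≠
      0 := by
  intro h0
  obtain ⟨q, hq⟩ := hg
  have h1 := congrArg (PhiP (cvx F n (4 * n)) (crv2 F n (lev (max n (rkT κ k w r c D Δ))))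
    (2 + EtotK κ k w Δ)) hq
  rw [map_mul, h0, zero_mul, map_prod, Finset.prod_eq_zero_iff] at h1
  obtain ⟨j, -, hj⟩ := h1
  exact limit_hit κ k w r c D Δ (P j) (hP j).2 (hP j).1 hj

end Pool.Agent.TXL
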