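import Pool.Agent.TXL.Defs
import Pool.Agent.SPE.Sat
import Pool.Agent.SPE.Lft
import Pool.Agent.TWA.CutA

/-!
MODULE TXL-CutR (est. 0.8 h).  Flattening ranks do not increase modulo the maximal ideal.

PLAN.  For any commutative ring `R` let `ψ : R[x] → R[x][y]` (`MvPolynomial (Fin n) (MvPolynomial (Fin n) R)`)
be the ring homomorphism `X i ↦ if i ∈ S then C (X i) else X i`, constants `a ↦ C (C a)`.
(a) `coeff β (ψ f)` has `vars ⊆ S`; `β ∈ (ψ f).support` implies `β.support ⊆ Sᶜ`.
(b) `f = ∑ β ∈ (ψ f).support, coeff β (ψ f) * monomial β 1` (apply `aeval X`, an `R[x]`-algebra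
homomorphism `R[x][y] → R[x]`, to `ψ f`; it maps `ψ f` to `f`: `MvPolynomial.ringHom_ext`; `as_sum`).
(c) for `f = ∑ k, g k * h k` with `vars (g k) ⊆ S`, `vars (h k) ⊆ Sᶜ` over a field:
`ψ (g k) = C (g k)`, `ψ (h k) = map C (h k)`, so `coeff β (ψ f) = ∑ k, coeff β (h k) • g k` is in the span
of the `g k`.
(d) `ψ` commutes with `map`.
Let `V = span K (range g)`, `r = finrank K V ≤ w` (`finrank_range_le_card`), `T : Fin r → V` a basis
(`Module.finBasis`), `SPE.saturate T` gives `e j` over `O` with independent residues, `map (e j) ∈ V`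
(so `vars (map (e j)) ⊆ S` and `vars (e j) ⊆ S`, as `algebraMap O K` is injective), `T j ∈` span of the
`map (e j)`.  By the lifting lemma of `Pool/Agent/SPE/Lft.lean` (coordinates in `K` of an integral element
of the span of the `map (e j)` are in `O`) `coeff β (ψ P) = ∑ j, C (o β j) * e j`.  Hence
`rd P = ∑ j, rd (e j) * ∑ β ∈ (ψ P).support, C (res (o β j)) * monomial β 1`, `r` terms; `Cut.mono`
(`Pool/Agent/TWA/CutA.lean`, namespace `Pool.Agent.AOI`).
-/

set_option autoImplicit false

namespace Pool.Agent.TXL

open MvPolynomial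
open Pool.Agent.AOI (Cut Cuts)
open Pool.Agent.CLO (RF rd)

variable {n : ℕ} {O : Type*} [CommRing O] [IsDomain O] [ValuationRing O] {K : Type*} [Field K]
  [Algebra O K] [IsFractionRing O K]

/-- The variables in `S` become coefficients. -/
private noncomputable def psi (R : Type*) [CommRing R] (S : Finset (Fin n)) :
    MvPolynomial (Fin n) R →+* MvPolynomial (Fin n) (MvPolynomial (Fin n) R) :=
  eval₂Hom ((C : MvPolynomial (Fin n) R →+* _).comp (C : R →+* MvPolynomial (Fin n) R))
    (fun i => if i ∈ S then C (X i) else X i)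

private theorem psi_C {R : Type*} [CommRing R] (S : Finset (Fin n)) (a : R) :
    psi R S (C a) = C (C a) := by
  rw [psi, coe_eval₂Hom, eval₂_C]
  rfl

private theorem psi_X {R : Type*} [CommRing R] (S : Finset (Fin n)) (i : Fin n) :
    psi R S (X i) = if i ∈ S then C (X i) else X i := by
  rw [psi, coe_eval₂Hom, eval₂_X]

private theorem psi_inv {R : Type*} [CommRing R] (S : Finset (Fin n))
    (f : MvPolynomial (Fin n) R) :
    aeval (fun i => (X i : MvPolynomial (Fin n) R)) (psi R S f) = f := by
  induction f using MvPolynomial.induction_on with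
  | C a => rw [psi_C, aeval_C]; rfl
  | add p q hp hq => rw [map_add, map_add, hp, hq]
  | mul_X p i hp =>
    rw [map_mul, map_mul, hp, psi_X]
    by_cases h : i ∈ S
    · rw [if_pos h, aeval_C]; rfl
    · rw [if_neg h, aeval_X]

private theorem psi_sum {R : Type*} [CommRing R] (S : Finset (Fin n))
    (f : MvPolynomial (Fin n) R) :
    f = ∑ β ∈ (psi R S f).support, coeff β (psi R S f) * ∏ i, X i ^ β i := by
  have h := psi_inv S f
  rw [aeval_def, eval₂_eq'] at h
  exact h.symm

private theorem psi_supp {R : Type*} [CommRing R] (S : Finset (Fin n))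
    (f : MvPolynomial (Fin n) R) :
    ∀ β : Fin n →₀ ℕ, coeff β (psi R S f) ≠ 0 → ∀ i ∈ S, β i = 0 := by
  classical
  induction f using MvPolynomial.induction_on with
  | C a =>
    intro β hβ i _
    rw [psi_C, coeff_C] at hβ
    by_cases h : 0 = β
    · rw [← h]; rfl
    · rw [if_neg h] at hβ; exact absurd rfl hβ
  | add p q hp hq =>
    intro β hβ i hi
    rw [map_add, coeff_add] at hβ
    by_cases h : coeff β (psi R S p) = 0
    · rw [h, zero_add] at hβ
      exact hq β hβ i hi
    · exact hp β h i hi
  | mul_X p j hp =>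
    intro β hβ i hi
    rw [map_mul, psi_X] at hβ
    by_cases h : j ∈ S
    · rw [if_pos h, mul_comm, coeff_C_mul] at hβ
      exact hp β (right_ne_zero_of_mul hβ) i hi
    · rw [if_neg h, coeff_mul_X'] at hβ
      by_cases h2 : j ∈ β.support
      · rw [if_pos h2] at hβ
        have h3 := hp _ hβ i hi
        have h4 : i ≠ j := fun h5 => h (h5 ▸ hi)
        rw [Finsupp.coe_tsub, Pi.sub_apply, Finsupp.single_apply, if_neg (Ne.symm h4)] at h3
        simpa using h3
      · rw [if_neg h2] at hβ; exact absurd rfl hβ

private theorem psi_map {R R' : Type*} [CommRing R] [CommRing R'] (φ : R →+* R')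
    (S : Finset (Fin n)) (f : MvPolynomial (Fin n) R) :
    MvPolynomial.map (MvPolynomial.map φ) (psi R S f) = psi R' S (MvPolynomial.map φ f) := by
  induction f using MvPolynomial.induction_on with
  | C a => rw [psi_C, map_C, map_C, psi_C]
  | add p q hp hq => rw [map_add, map_add, hp, hq, map_add, map_add]
  | mul_X p j hp =>
    rw [map_mul, map_mul, hp, map_mul, map_mul, psi_X, map_X, psi_X]
    by_cases h : j ∈ S
    · rw [if_pos h, if_pos h, map_C, map_X]
    · rw [if_neg h, if_neg h, map_X]

private theorem psi_left {R : Type*} [CommRing R] {S : Finset (Fin n)}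
    {g : MvPolynomial (Fin n) R} (hg : g.vars ⊆ S) : psi R S g = C g := by
  refine hom_congr_vars (f₁ := psi R S) (f₂ := C) ?_ ?_ rfl
  · ext a : 1
    rw [RingHom.comp_apply, RingHom.comp_apply, psi_C]
  · intro i hi _
    rw [psi_X, if_pos (hg hi)]

private theorem psi_right {R : Type*} [CommRing R] {S : Finset (Fin n)}
    {g : MvPolynomial (Fin n) R} (hg : g.vars ⊆ Sᶜ) :
    psi R S g = MvPolynomial.map (C : R →+* MvPolynomial (Fin n) R) g := by
  refine hom_congr_vars (f₁ := psi R S) (f₂ := MvPolynomial.map C) ?_ ?_ rfl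
  · ext a : 1
    rw [RingHom.comp_apply, RingHom.comp_apply, psi_C, map_C]
  · intro i hi _
    rw [psi_X, if_neg (Finset.mem_compl.1 (hg hi)), map_X]

private theorem psi_mul {R : Type*} [CommRing R] {S : Finset (Fin n)}
    {g h : MvPolynomial (Fin n) R} (hg : g.vars ⊆ S) (hh : h.vars ⊆ Sᶜ) (β : Fin n →₀ ℕ) :
    coeff β (psi R S (g * h)) = coeff β h • g := by
  rw [map_mul, psi_left hg, psi_right hh, coeff_C_mul, coeff_map, smul_eq_C_mul, mul_comm]

theorem cut_rd {w : ℕ} {S : Finset (Fin n)} {P : MvPolynomial (Fin n) O}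
    (h : Cut w S (MvPolynomial.map (algebraMap O K) P)) : Cut w S (rd O P) := by
  classical
  obtain ⟨g, u, hg, hu, hP⟩ := h
  obtain ⟨r, hrw, T, hTg, hTs, hTl⟩ : ∃ r ≤ w, ∃ T : Fin r → MvPolynomial (Fin n) K,
      (∀ i, T i ∈ Set.range g) ∧
        Submodule.span K (Set.range T) = Submodule.span K (Set.range g) ∧
        LinearIndependent K T := by
    have hfin : Module.Finite K (Submodule.span K (Set.range g)) :=
      FiniteDimensional.span_of_finite K (Set.finite_range g)
    obtain ⟨T, hT⟩ := Submodule.exists_fun_fin_finrank_span_eq K (Set.range g)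
    have h1 := finrank_range_le_card (R := K) g
    rw [Fintype.card_fin] at h1
    exact ⟨_, h1, T, hT⟩
  obtain ⟨e, he1, he2, he3⟩ := Pool.Agent.SPE.saturate (O := O) T hTl
  -- the coefficients are in the span
  have hco : ∀ β : Fin n →₀ ℕ, MvPolynomial.map (algebraMap O K) (coeff β (psi O S P)) ∈
      Submodule.span K (Set.range fun i => MvPolynomial.map (algebraMap O K) (e i)) := by
    intro β
    have h1 : MvPolynomial.map (algebraMap O K) (coeff β (psi O S P)) =
        ∑ k, coeff β (u k) • g k := by
      rw [← coeff_map, psi_map, hP, map_sum, coeff_sum]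
      exact Finset.sum_congr rfl fun k _ => psi_mul (hg k) (hu k) β
    rw [h1]
    have h2 : Submodule.span K (Set.range g) ≤
        Submodule.span K (Set.range fun i => MvPolynomial.map (algebraMap O K) (e i)) := by
      rw [← hTs, Submodule.span_le]
      rintro _ ⟨j, rfl⟩
      exact he3 j
    exact Submodule.sum_mem _ fun k _ => Submodule.smul_mem _ _
      (h2 (Submodule.subset_span ⟨k, rfl⟩))
  choose d hd using fun β => Pool.Agent.SPE.lift_coord e he1 (coeff β (psi O S P)) (hco β)
  -- the variables of the new left factors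
  have hev : ∀ j, (rd O (e j)).vars ⊆ S := by
    intro j
    refine (vars_map _ _).trans ?_
    have h1 : ∀ p ∈ Submodule.span K (Set.range T), p.vars ⊆ S := by
      intro p hp
      induction hp using Submodule.span_induction with
      | mem x hx =>
        obtain ⟨i, rfl⟩ := hx
        obtain ⟨k, hk⟩ := hTg i
        rw [← hk]
        exact hg k
      | zero => rw [vars_0]; exact Finset.empty_subset _
      | add x y _ _ hx hy => exact (vars_add_subset x y).trans (Finset.union_subset hx hy)
      | smul a x _ hx =>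
        rw [smul_eq_C_mul]
        refine (vars_mul _ _).trans (Finset.union_subset ?_ hx)
        rw [vars_C]
        exact Finset.empty_subset _
    have h2 := h1 _ (he2 j)
    rwa [vars_map_of_injective _ (IsFractionRing.injective O K)] at h2
  have hmain : rd O P = ∑ j, rd O (e j) *
      ∑ β ∈ (psi O S P).support, C (d β j) * ∏ i, X i ^ β i := by
    have h1 := congrArg (rd O) (psi_sum S P)
    rw [map_sum] at h1
    rw [h1]
    have h2 : ∀ β ∈ (psi O S P).support,
        rd O (coeff β (psi O S P) * ∏ i, X i ^ β i) =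
          ∑ j, rd O (e j) * (C (d β j) * ∏ i, X i ^ β i) := by
      intro β _
      rw [map_mul, hd β, map_prod, Finset.sum_mul]
      refine Finset.sum_congr rfl fun j _ => ?_
      rw [smul_eq_C_mul]
      simp only [map_pow, map_X]
      ring
    rw [Finset.sum_congr rfl h2, Finset.sum_comm]
    refine Finset.sum_congr rfl fun j _ => ?_
    rw [Finset.mul_sum]
  have hcut : Cut r S (rd O P) := by
    refine ⟨fun j => rd O (e j), fun j => ∑ β ∈ (psi O S P).support, C (d β j) *
      ∏ i, X i ^ β i, hev, fun j => ?_, hmain⟩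
    refine (vars_sum_subset _ _).trans (Finset.biUnion_subset.2 fun β hβ => ?_)
    refine (vars_mul _ _).trans (Finset.union_subset ?_ ?_)
    · rw [vars_C]
      exact Finset.empty_subset _
    · refine (vars_prod _).trans (Finset.biUnion_subset.2 fun i _ => ?_)
      by_cases hi : i ∈ S
      · rw [psi_supp S P β (mem_support_iff.1 hβ) i hi, pow_zero, vars_one]
        exact Finset.empty_subset _
      · refine (vars_pow _ _).trans ?_
        rw [vars_X]
        exact Finset.singleton_subset_iff.2 (Finset.mem_compl.2 hi)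
  exact hcut.mono hrw

theorem cuts_rd {w : ℕ} {P : MvPolynomial (Fin n) O}
    (h : Cuts w (MvPolynomial.map (algebraMap O K) P)) : Cuts w (rd O P) :=
  fun S => cut_rd (h S)

end Pool.Agent.TXL
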