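import Pool.Agent.TWX.Defs
import Pool.Agent.CLO.Defs

/-!
Project TXL (MP_e2be99_lc): limits (over valuation rings) of formulas of bounded depth (gates:
`Pool.Agent.CWR.Circ`) over leaves which are products of one polynomial of polynomial flattening rank
(a read-once program in any order) and of any number of polynomials `p(h_1, ..., h_c)` in boundedly
many polynomials `h_i` of constant flattening rank.
`Cut`, `Cuts` are those of `Pool.Agent.AOI`, `Ps`, `lev` those of `Pool.Agent.FOR`.
Paper proof: /team-store/pit48_TXL.md.
-/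

set_option autoImplicit false

namespace Pool.Agent.TXL

open MvPolynomial
open Pool.Agent.AOI (Cut Cuts)
open Pool.Agent.FOR (Ps lev)

/-- `g = p(h_1, ..., h_c)`: `p` has degree at most `D`, all flattenings of all `h_i` have rank at
most `c`. -/
def Fac {K : Type*} [Field K] {n : ℕ} (c D : ℕ) (g : MvPolynomial (Fin n) K) : Prop :=
  ∃ (p : MvPolynomial (Fin c) K) (h : Fin c → MvPolynomial (Fin n) K),
    p.totalDegree ≤ D ∧ (∀ i, Cuts c (h i)) ∧ g = aeval h p

/-- The leaves: products `R * ∏ j, g j` of total degree at most `D`, where all flattenings of `R`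
have rank at most `r` and all `g j` are factors as in `Fac`. -/
def Leaf {K : Type*} [Field K] {n : ℕ} (r c D : ℕ) (f : MvPolynomial (Fin n) K) : Prop :=
  f.totalDegree ≤ D ∧ ∃ (s : ℕ) (R : MvPolynomial (Fin n) K) (g : Fin s → MvPolynomial (Fin n) K),
    Cuts r R ∧ (∀ j, Fac c D (g j)) ∧ f = R * ∏ j, g j

/-- Bound for the flattening rank of the factors. -/
def rho (c D : ℕ) : ℕ := (D + 1) ^ (c * c)

/-- Bound for the flattening ranks of the first `Z` coefficients of the inverse of a factor. -/
def iota (Z c D : ℕ) : ℕ := (Z * D + 1) ^ (c * c) * Z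

/-- Bound for the flattening rank of the coefficients in the rows of the Jacobian matrix;
`Z` is the number of coefficients, `p` the order of the derivatives. -/
def rE (Z p r c D : ℕ) : ℕ :=
  (D + 1) ^ p * ((r + 1) * Z ^ 2 * (Z ^ 3 * (rho c D * iota Z c D)) ^ p)

/-- Bound for the flattening rank of the lowest term of a minor of order at most `M` of derivatives
of order at most `p` of leaves, `Z = M D + 1`. -/
def rk (M p r c D : ℕ) : ℕ :=
  M.factorial * ((M * D + 1) * rE (M * D + 1) p r c D) ^ M

/-- The first part of the generator: `Ps_i(s_0, s_1) + s_2 Ps_i(s_3, s_4)`. -/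
def crvN {R : Type*} [CommSemiring R] (L : ℕ) (s : Fin 5 → R) (i : ℕ) : R :=
  Ps L (s 0) (s 1) i + s 2 * Ps L (s 3) (s 4) i

end Pool.Agent.TXL
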