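import Pool.Agent.CWR.Core
import Pool.Agent.ORB.H1

/-!
MODULE TXL-FinL.  A formula uses finitely many leaves; finitely many derivatives.
-/

set_option autoImplicit false

namespace Pool.Agent.TXL

open MvPolynomial
open Pool.Agent.CWR (Circ)
open Pool.Agent.ORB (Dc)

variable {K : Type*} [Field K] {n κ w : ℕ} {β : ℕ → Option (Fin n → ℕ)}

theorem circ_mono {𝓛 𝓛' : MvPolynomial (Fin n) K → Prop} (h : ∀ f, 𝓛 f → 𝓛' f) {Δ : ℕ}
    {f : MvPolynomial (Fin n) K} (hf : Circ κ w β 𝓛 Δ f) : Circ κ w β 𝓛' Δ f := by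
  induction hf with
  | leaf hf => exact .leaf (h _ hf)
  | sum hβ b _ hκ ih => exact .sum hβ b ih hκ
  | prod hβ b _ hκ e ih => exact .prod hβ b ih hκ e
  | comp hβ b _ hm p ih => exact .comp hβ b ih hm p
  | abp hβ hw M _ hv u v ih => exact .abp hβ hw M ih hv u v

/-- finitely many formulas, each over finitely many leaves -/
private theorem finL_union {𝓛 : MvPolynomial (Fin n) K → Prop} {Δ : ℕ} {ι : Type} [Finite ι]
    (b : ι → MvPolynomial (Fin n) K)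
    (h : ∀ i, ∃ A : Set (MvPolynomial (Fin n) K), A.Finite ∧ (∀ g ∈ A, 𝓛 g) ∧
      Circ κ w β (fun g => g ∈ A) Δ (b i)) :
    ∃ A : Set (MvPolynomial (Fin n) K), A.Finite ∧ (∀ g ∈ A, 𝓛 g) ∧
      ∀ i, Circ κ w β (fun g => g ∈ A) Δ (b i) := by
  choose A hA hL hC using h
  refine ⟨⋃ i, A i, Set.finite_iUnion hA, ?_, fun i => ?_⟩
  · intro g hg
    obtain ⟨i, hi⟩ := Set.mem_iUnion.1 hg
    exact hL i g hi
  · exact circ_mono (fun g hg => Set.mem_iUnion.2 ⟨i, hg⟩) (hC i)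

theorem circ_fin {𝓛 : MvPolynomial (Fin n) K → Prop} {Δ : ℕ}
    {f : MvPolynomial (Fin n) K} (hf : Circ κ w β 𝓛 Δ f) :
    ∃ A : Set (MvPolynomial (Fin n) K), A.Finite ∧ (∀ g ∈ A, 𝓛 g) ∧
      Circ κ w β (fun g => g ∈ A) Δ f := by
  induction hf with
  | @leaf f hf =>
    refine ⟨{f}, Set.finite_singleton f, ?_, .leaf (Set.mem_singleton f)⟩
    intro g hg
    rw [Set.mem_singleton_iff.1 hg]
    exact hf
  | sum hβ b _ hκ ih =>
    obtain ⟨A, h1, h2, h3⟩ := finL_union b ih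
    exact ⟨A, h1, h2, .sum hβ b h3 hκ⟩
  | prod hβ b _ hκ e ih =>
    obtain ⟨A, h1, h2, h3⟩ := finL_union b ih
    exact ⟨A, h1, h2, .prod hβ b h3 hκ e⟩
  | comp hβ b _ hm p ih =>
    obtain ⟨A, h1, h2, h3⟩ := finL_union b ih
    exact ⟨A, h1, h2, .comp hβ b h3 hm p⟩
  | @abp Δ L w' blk hβ hw M _ hv u v ih =>
    obtain ⟨A, h1, h2, h3⟩ := finL_union
      (fun x : Fin L × Fin w' × Fin w' => M x.1 x.2.1 x.2.2) fun x => ih x.1 x.1.2 x.2.1 x.2.2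
    exact ⟨A, h1, h2, .abp hβ hw M (fun l hl i j => h3 (⟨l, hl⟩, i, j)) hv u v⟩

theorem circ_fin' {𝓛 : MvPolynomial (Fin n) K → Prop} {Δ N : ℕ}
    (T : Fin N → MvPolynomial (Fin n) K) (hT : ∀ i, Circ κ w β 𝓛 Δ (T i)) :
    ∃ A : Set (MvPolynomial (Fin n) K), A.Finite ∧ (∀ g ∈ A, 𝓛 g) ∧
      ∀ i, Circ κ w β (fun g => g ∈ A) Δ (T i) :=
  finL_union T fun i => circ_fin (hT i)

theorem dc_finite {A : Set (MvPolynomial (Fin n) K)} (hA : A.Finite) (m : ℕ) :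
    (Dc A m).Finite := by
  refine ((List.finite_length_le (Fin n) m).prod hA |>.image
    fun x : List (Fin n) × MvPolynomial (Fin n) K => Pool.Agent.ORB.pd x.1 x.2).subset ?_
  rintro f ⟨L, hL, b, hb, rfl⟩
  exact ⟨(L, b), ⟨hL, hb⟩, rfl⟩

end Pool.Agent.TXL
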