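import Pool.Agent.TWX.Inv
import Pool.Agent.TWX.Sb
import Pool.Agent.TXL.Defs

/-!
MODULE TXL-Pol (est. 1.2 h).  The factors `p(h_1, ..., h_c)`: flattening ranks and inverses.
Model: `Pool/Agent/TWX/Inv.lean` (`exists_inv` is the case of one polynomial `h`).

PLAN.  `cut_pol`: `aeval (fun q => a q * b q) Q = ∑ α ∈ Q.support, C (coeff α Q) * ((∏ q, a q ^ α q) *
∏ q, b q ^ α q)` (`aeval_def`, `eval₂_eq'`); every term has `Cut 1` (`vars` of products of powers,
`mem_supported`, `Subalgebra.prod_mem`, `Subalgebra.pow_mem`); at most `(d+1)^m` exponents: `α q ≤ d`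
(`le_totalDegree`/`degreeOf_le_totalDegree`), inject into `Fin m → Fin (d+1)` (`Finset.card_le_card_of_injOn`
or `Fintype.piFinset (fun _ => Finset.range (d+1))`); `Cut.sum`.
`bc_pol`: the same for power series, every term by `bc_pur` (`Pur.prod`, `Pur.pow`) and `BC.C_mul`, `BC.sum`.
`exists_pol`: `h i = ∑ q : Fin c, A i q * B i q` (`Cuts c (h i)` for `S`), with `finProdFinEquiv` index the
pairs `(i, q)` by `Fin (c * c)`; `Q = aeval (fun i => ∑ q, X (finProdFinEquiv (i, q))) p`,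
`Q.totalDegree ≤ p.totalDegree ≤ D` (`FOR.aeval_le` with the degree function `totalDegree`, as in
`Pool/Agent/TWX/Dg.lean`, or `Pool/Agent/Helper6`), `aeval (fun x => A x * B x) Q = aeval h p = g`.
`fac_cuts`: `exists_pol`, `cut_pol`.
`fac_inv`: as `TWX.exists_inv`: `v` = inverse of the unit `sb b g`; `g₀ = eval b g`,
`u = 1 - C (C g₀⁻¹) * sb b g`, `v = C (C g₀⁻¹) * ∑ l < Z, u ^ l + v * u ^ Z`, `X ^ Z ∣ u ^ Z`.  With
`sb b g = aeval (fun x => sb b (A x) * sb b (B x)) Q` the sum `∑ l < Z, u ^ l` is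
`aeval (..) (∑ l ∈ range Z, (1 - C g₀⁻¹ * Q) ^ l)`, a polynomial of total degree `≤ Z * D`
(`totalDegree_pow`, `totalDegree_finsetSum_le`); `bc_pol`, `BC.C_mul`.
-/

set_option autoImplicit false

namespace Pool.Agent.TXL

open MvPolynomial
open Pool.Agent.AOI (Cut Cuts)
open Pool.Agent.TWX (sb BC Pur)

variable {L : Type*} [Field L] {n : ℕ}

private theorem pol_card {m d : ℕ} (Q : MvPolynomial (Fin m) L) (hQ : Q.totalDegree ≤ d) :
    Q.support.card ≤ (d + 1) ^ m := by
  have h : Q.support.card ≤ (Fintype.piFinset fun _ : Fin m => Finset.range (d + 1)).card := by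
    refine Finset.card_le_card_of_injOn (fun α q => α q) ?_ ?_
    · intro α hα
      rw [Finset.mem_coe, Fintype.mem_piFinset]
      intro q
      rw [Finset.mem_range]
      show α q < d + 1
      have h1 : α q ≤ ∑ j, α j := Finset.single_le_sum (fun j _ => Nat.zero_le _) (Finset.mem_univ q)
      have h2 := le_totalDegree (Finset.mem_coe.1 hα)
      rw [Finsupp.sum_fintype _ _ (fun _ => rfl)] at h2
      omega
    · intro α _ β _ h
      exact DFunLike.coe_injective h
  refine h.trans ?_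
  rw [Fintype.card_piFinset]
  simp

private theorem pol_sup {S : Finset (Fin n)} {p : MvPolynomial (Fin n) L} :
    p.vars ⊆ S ↔ p ∈ supported L (S : Set (Fin n)) := by
  rw [mem_supported, Finset.coe_subset]

private theorem pol_mon {S : Finset (Fin n)} {m : ℕ} (a : Fin m → MvPolynomial (Fin n) L)
    (ha : ∀ q, (a q).vars ⊆ S) (α : Fin m →₀ ℕ) : (∏ q, a q ^ α q).vars ⊆ S := by
  rw [pol_sup]
  exact Subalgebra.prod_mem _ fun q _ => Subalgebra.pow_mem _ (pol_sup.1 (ha q)) _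

private theorem pol_deg {m m' : ℕ} (p : MvPolynomial (Fin m) L)
    (y : Fin m → MvPolynomial (Fin m') L) (hy : ∀ i, (y i).totalDegree ≤ 1) :
    (aeval y p).totalDegree ≤ p.totalDegree := by
  rw [aeval_def, eval₂_eq']
  refine totalDegree_finsetSum_le fun α hα => ?_
  refine (totalDegree_mul _ _).trans ?_
  rw [algebraMap_eq, totalDegree_C, zero_add]
  refine (totalDegree_finsetProd _ _).trans ?_
  refine le_trans (Finset.sum_le_sum fun i _ =>
    (totalDegree_pow _ _).trans (Nat.mul_le_mul_left _ (hy i))) ?_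
  have h2 := le_totalDegree hα
  rw [Finsupp.sum_fintype _ _ (fun _ => rfl)] at h2
  simpa using h2

theorem cut_pol {S : Finset (Fin n)} {m d : ℕ} (a b : Fin m → MvPolynomial (Fin n) L)
    (ha : ∀ q, (a q).vars ⊆ S) (hb : ∀ q, (b q).vars ⊆ Sᶜ) (Q : MvPolynomial (Fin m) L)
    (hQ : Q.totalDegree ≤ d) : Cut ((d + 1) ^ m) S (aeval (fun q => a q * b q) Q) := by
  rw [aeval_def, eval₂_eq']
  have h1 := Pool.Agent.AOI.Cut.sum (S := S) (w := 1) Q.support
    (fun α => algebraMap L (MvPolynomial (Fin n) L) (coeff α Q) * ∏ q, (a q * b q) ^ α q)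
    (fun α _ => ⟨fun _ => ∏ q, a q ^ α q, fun _ => C (coeff α Q) * ∏ q, b q ^ α q,
      fun _ => pol_mon a ha α, fun _ => ?_, ?_⟩)
  · exact h1.mono (by rw [mul_one]; exact pol_card Q hQ)
  · rw [pol_sup]
    exact Subalgebra.mul_mem _ (Subalgebra.algebraMap_mem _ _) (pol_sup.1 (pol_mon b hb α))
  · rw [Fin.sum_univ_one, algebraMap_eq]
    simp only [mul_pow, Finset.prod_mul_distrib]
    ring

theorem bc_pol {S : Finset (Fin n)} {m d Z : ℕ} (U V : Fin m → PowerSeries (MvPolynomial (Fin n) L))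
    (hU : ∀ q, Pur S (U q)) (hV : ∀ q, Pur Sᶜ (V q)) (Q : MvPolynomial (Fin m) L)
    (hQ : Q.totalDegree ≤ d) : BC ((d + 1) ^ m * Z) Z S (aeval (fun q => U q * V q) Q) := by
  rw [aeval_def, eval₂_eq']
  have h1 := BC.sum (S := S) (Z := Z) (r := Z) Q.support
    (fun α => algebraMap L (PowerSeries (MvPolynomial (Fin n) L)) (coeff α Q) *
      ∏ q, (U q * V q) ^ α q) (by
      intro α _
      have h2 : BC Z Z S ((∏ i, U i ^ α i) * ∏ i, V i ^ α i) :=
        TWX.bc_pur (Pur.prod _ _ fun i _ => (hU i).pow _) (Pur.prod _ _ fun i _ => (hV i).pow _) Z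
      have h3 := h2.C_mul (coeff α Q)
      have h4 : algebraMap L (PowerSeries (MvPolynomial (Fin n) L)) (coeff α Q) *
          ∏ q, (U q * V q) ^ α q = PowerSeries.C (C (coeff α Q)) *
            ((∏ i, U i ^ α i) * ∏ i, V i ^ α i) := by
        rw [PowerSeries.algebraMap_apply, algebraMap_eq, ← Finset.prod_mul_distrib]
        simp only [mul_pow]
      rw [h4]
      exact h3)
  exact h1.mono (Nat.mul_le_mul_right _ (pol_card Q hQ))

theorem exists_pol {c D : ℕ} {g : MvPolynomial (Fin n) L} (hg : Fac c D g) (S : Finset (Fin n)) :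
    ∃ (a b : Fin (c * c) → MvPolynomial (Fin n) L) (Q : MvPolynomial (Fin (c * c)) L),
      (∀ q, (a q).vars ⊆ S) ∧ (∀ q, (b q).vars ⊆ Sᶜ) ∧ Q.totalDegree ≤ D ∧
        g = aeval (fun q => a q * b q) Q := by
  obtain ⟨p, h, hp, hh, rfl⟩ := hg
  choose A B hA hB hAB using fun i => hh i S
  refine ⟨fun q => A (finProdFinEquiv.symm q).1 (finProdFinEquiv.symm q).2,
    fun q => B (finProdFinEquiv.symm q).1 (finProdFinEquiv.symm q).2,
    aeval (fun i : Fin c => ∑ k : Fin c, X (finProdFinEquiv (i, k))) p,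
    fun q => hA _ _, fun q => hB _ _, (pol_deg p _ fun i => ?_).trans hp, ?_⟩
  · refine totalDegree_finsetSum_le fun k _ => ?_
    rw [totalDegree_X]
  · rw [comp_aeval_apply]
    congr 1
    congr 1
    funext i
    rw [map_sum]
    simp only [aeval_X, Equiv.symm_apply_apply]
    exact hAB i

theorem fac_cuts {c D : ℕ} {g : MvPolynomial (Fin n) L} (hg : Fac c D g) : Cuts (rho c D) g := by
  intro S
  obtain ⟨a, b, Q, ha, hb, hQ, rfl⟩ := exists_pol hg S
  exact cut_pol a b ha hb Q hQ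

theorem fac_inv (b : Fin n → L) {c D : ℕ} {g : MvPolynomial (Fin n) L} (hg : Fac c D g)
    (h0 : eval b g ≠ 0) :
    ∃ v : PowerSeries (MvPolynomial (Fin n) L), sb b g * v = 1 ∧
      ∀ (Z : ℕ) (S : Finset (Fin n)), BC (iota Z c D) Z S v := by
  have hu : IsUnit (sb b g) := by
    rw [PowerSeries.isUnit_iff_constantCoeff, TWX.constantCoeff_sb]
    exact (isUnit_iff_ne_zero.mpr h0).map C
  obtain ⟨v, hv⟩ := hu.exists_right_inv
  refine ⟨v, hv, ?_⟩
  intro Z S
  obtain ⟨a, b', Q, ha, hb, hQ, hgs⟩ := exists_pol hg S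
  obtain ⟨u, hu0⟩ : ∃ u : PowerSeries (MvPolynomial (Fin n) L),
      u = 1 - PowerSeries.C (C (eval b g)⁻¹) * sb b g := ⟨_, rfl⟩
  have hX : PowerSeries.X ∣ u := by
    rw [PowerSeries.X_dvd_iff, hu0, map_sub, map_mul, TWX.constantCoeff_sb, map_one,
      PowerSeries.constantCoeff_C, ← C_mul, inv_mul_cancel₀ h0, C_1, sub_self]
  have hsb : sb b g = aeval (fun x => sb b (a x) * sb b (b' x)) Q := by
    conv_lhs => rw [hgs]
    rw [comp_aeval_apply]
    simp only [map_mul]
  have hua : u = aeval (fun x => sb b (a x) * sb b (b' x)) (1 - C (eval b g)⁻¹ * Q) := by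
    rw [hu0, map_sub, map_one, map_mul, aeval_C, PowerSeries.algebraMap_apply, algebraMap_eq, ← hsb]
  have hG : BC (iota Z c D) Z S (∑ l ∈ Finset.range Z, u ^ l) := by
    have h5 : ∑ l ∈ Finset.range Z, u ^ l = aeval (fun x => sb b (a x) * sb b (b' x))
        (∑ l ∈ Finset.range Z, (1 - C (eval b g)⁻¹ * Q) ^ l) := by
      rw [map_sum, hua]
      simp only [map_pow]
    rw [h5]
    refine bc_pol _ _ (fun q => TWX.pur_sb b (ha q)) (fun q => TWX.pur_sb b (hb q)) _ ?_
    refine totalDegree_finsetSum_le fun l hl => ?_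
    refine (totalDegree_pow _ _).trans (Nat.mul_le_mul (Finset.mem_range.1 hl).le ?_)
    refine (totalDegree_sub _ _).trans (max_le ?_ ?_)
    · rw [totalDegree_one]
      exact Nat.zero_le _
    · refine (totalDegree_mul _ _).trans ?_
      rw [totalDegree_C, zero_add]
      exact hQ
  have hgeo : (1 - u) * ∑ l ∈ Finset.range Z, u ^ l = 1 - u ^ Z := mul_neg_geom_sum u Z
  have hveq : v = PowerSeries.C (C (eval b g)⁻¹) * ∑ l ∈ Finset.range Z, u ^ l + v * u ^ Z := by
    have h8 : (1 : PowerSeries (MvPolynomial (Fin n) L)) - u =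
        PowerSeries.C (C (eval b g)⁻¹) * sb b g := by
      rw [hu0]; ring
    rw [h8] at hgeo
    have h9 : v * (PowerSeries.C (C (eval b g)⁻¹) * sb b g * ∑ l ∈ Finset.range Z, u ^ l) =
        v * (1 - u ^ Z) := by rw [hgeo]
    have h10 : v * (PowerSeries.C (C (eval b g)⁻¹) * sb b g * ∑ l ∈ Finset.range Z, u ^ l) =
        (sb b g * v) * (PowerSeries.C (C (eval b g)⁻¹) * ∑ l ∈ Finset.range Z, u ^ l) := by ring
    rw [h10, hv, one_mul] at h9
    rw [h9]
    ring
  intro l hl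
  have h11 : PowerSeries.coeff l v =
      PowerSeries.coeff l (PowerSeries.C (C (eval b g)⁻¹) * ∑ l ∈ Finset.range Z, u ^ l) := by
    conv_lhs => rw [hveq]
    rw [map_add]
    have h12 : PowerSeries.X ^ Z ∣ v * u ^ Z := Dvd.dvd.mul_left (pow_dvd_pow_of_dvd hX Z) v
    rw [PowerSeries.X_pow_dvd_iff.1 h12 l hl, add_zero]
  rw [h11]
  exact hG.C_mul _ l hl

end Pool.Agent.TXL
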