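import Pool.Agent.TXL.Row
import Pool.Agent.TXL.Pol
import Pool.Agent.TXL.CutR
import Pool.Agent.TWX.Jac

/-!
MODULE TXL-Jac.  The lowest term of the reduction of a minor of derivatives of leaves has small
flattening rank.
-/

set_option autoImplicit false

namespace Pool.Agent.TXL

open MvPolynomial
open Pool.Agent.AOI (Cut Cuts)
open Pool.Agent.ORB (pd)
open Pool.Agent.CLO (RF rd PhS)
open Pool.Agent.TWX (sb BC)

variable {n : ℕ} {O : Type*} [CommRing O] [IsDomain O] [ValuationRing O] {K : Type*} [Field K]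
  [Algebra O K] [IsFractionRing O K]

/-- Leaves whose factors are defined over `O` and do not vanish at `b` modulo the maximal ideal. -/
def LeafO (K : Type*) [Field K] [Algebra O K] (b : Fin n → O) (r c D : ℕ)
    (f : MvPolynomial (Fin n) K) : Prop :=
  f.totalDegree ≤ D ∧ ∃ s ≤ D, ∃ (R : MvPolynomial (Fin n) K) (G : Fin s → MvPolynomial (Fin n) O),
    Cuts r R ∧ (∀ j, Fac c D (MvPolynomial.map (algebraMap O K) (G j))) ∧
      (∀ j, IsLocalRing.residue O (eval b (G j)) ≠ 0) ∧
        f = R * ∏ j, MvPolynomial.map (algebraMap O K) (G j)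

private theorem jl_PhS_C {R : Type*} [CommRing R] (β : Fin n → R) (x : R) :
    PhS β (C x) = PowerSeries.C (C x) := by
  unfold PhS
  rw [aeval_C, PowerSeries.algebraMap_apply, MvPolynomial.algebraMap_eq]

private theorem jl_PhS_X {R : Type*} [CommRing R] (β : Fin n → R) (j : Fin n) :
    PhS β (X j) = PowerSeries.C (C (β j)) + PowerSeries.X * PowerSeries.C (X j) := by
  unfold PhS
  rw [aeval_X]

theorem phS_map {R R' : Type*} [CommRing R] [CommRing R'] (φ : R →+* R') (β : Fin n → R)
    (f : MvPolynomial (Fin n) R) :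
    PowerSeries.map (MvPolynomial.map φ) (PhS β f) =
      PhS (fun i => φ (β i)) (MvPolynomial.map φ f) := by
  induction f using MvPolynomial.induction_on with
  | C a => rw [jl_PhS_C, PowerSeries.map_C, MvPolynomial.map_C, jl_PhS_C]
  | add p q hp hq => rw [map_add, map_add, map_add, map_add, hp, hq]
  | mul_X p j hp =>
    rw [map_mul, map_mul, map_mul, map_mul, hp, jl_PhS_X, MvPolynomial.map_X, jl_PhS_X, map_add,
      map_mul, PowerSeries.map_C, PowerSeries.map_C, PowerSeries.map_X, MvPolynomial.map_C,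
      MvPolynomial.map_X]

private theorem jl_const {R : Type*} [CommRing R] (β : Fin n → R) (w : MvPolynomial (Fin n) R) :
    PowerSeries.constantCoeff (PhS β w) = C (eval β w) := by
  induction w using MvPolynomial.induction_on with
  | C a => rw [jl_PhS_C, PowerSeries.constantCoeff_C, eval_C]
  | add p q hp hq => rw [map_add, map_add, map_add, map_add, hp, hq]
  | mul_X p j hp =>
    rw [map_mul, map_mul, map_mul, map_mul, hp, jl_PhS_X, map_add, map_mul,
      PowerSeries.constantCoeff_C, PowerSeries.constantCoeff_X, zero_mul, add_zero, eval_X]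

private theorem jl_eval_map {R R' : Type*} [CommRing R] [CommRing R'] (φ : R →+* R')
    (β : Fin n → R) (w : MvPolynomial (Fin n) R) :
    eval (fun i => φ (β i)) (MvPolynomial.map φ w) = φ (eval β w) := by
  induction w using MvPolynomial.induction_on with
  | C a => rw [MvPolynomial.map_C, eval_C, eval_C]
  | add p q hp hq => rw [map_add, map_add, map_add, map_add, hp, hq]
  | mul_X p j hp => rw [map_mul, map_mul, map_mul, map_mul, hp, MvPolynomial.map_X, eval_X, eval_X]

private theorem jl_rho_pos (c D : ℕ) : 0 < rho c D := pow_pos (Nat.succ_pos D) _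

private theorem jl_iota_pos {Z : ℕ} (hZ : 0 < Z) (c D : ℕ) : 0 < iota Z c D :=
  Nat.mul_pos (pow_pos (Nat.succ_pos _) _) hZ

private theorem jl_rE_pos {Z : ℕ} (hZ : 0 < Z) (p r c D : ℕ) : 0 < rE Z p r c D := by
  unfold rE
  have h1 : 0 < Z ^ 2 := pow_pos hZ 2
  have h2 : 0 < Z ^ 3 := pow_pos hZ 3
  have h3 := jl_rho_pos c D
  have h4 := jl_iota_pos hZ c D
  positivity

private theorem jl_deg_map_le {R R' : Type*} [CommRing R] [CommRing R'] (φ : R →+* R')
    (w : MvPolynomial (Fin n) R) : (MvPolynomial.map φ w).totalDegree ≤ w.totalDegree := by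
  unfold totalDegree
  exact Finset.sup_mono (support_map_subset _ _)

private theorem jl_deg_le_map {R R' : Type*} [CommRing R] [CommRing R'] (φ : R →+* R')
    (hφ : Function.Injective φ) (w : MvPolynomial (Fin n) R) :
    w.totalDegree ≤ (MvPolynomial.map φ w).totalDegree := by
  unfold totalDegree
  rw [support_map_of_injective _ hφ]

theorem jac_lim (b : Fin n → O) {M M' p r c D : ℕ} (hM : M' ≤ M)
    (f : Fin M' → MvPolynomial (Fin n) K) (hf : ∀ i, LeafO K b r c D (f i))
    (Λ : Fin M' → List (Fin n)) (hΛ : ∀ i, (Λ i).length ≤ p) (J : Fin M' → Fin n)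
    (G0 : MvPolynomial (Fin n) O) (x : K)
    (hG : MvPolynomial.map (algebraMap O K) G0 =
      x • (Matrix.of fun i j => pderiv (J j) (pd (Λ i) (f i))).det) (hrd : rd O G0 ≠ 0) :
    ∃ m, PowerSeries.coeff m (sb (fun i => IsLocalRing.residue O (b i)) (rd O G0)) ≠ 0 ∧
      Cuts (rk M (p + 1) r c D)
        (PowerSeries.coeff m (sb (fun i => IsLocalRing.residue O (b i)) (rd O G0))) := by
  classical
  have hinj : Function.Injective (algebraMap O K) := IsFractionRing.injective O K
  have hdeg : (Matrix.of fun i j => pderiv (J j) (pd (Λ i) (f i))).det.totalDegree ≤ M' * D :=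
    TWX.deg_det f (fun i => (hf i).1) Λ J
  obtain ⟨m, hm, hm0, hml⟩ := TWX.exists_low (fun i => IsLocalRing.residue O (b i)) hrd
  refine ⟨m, hm0, ?_⟩
  obtain ⟨Z, hZ⟩ : ∃ Z, Z = M * D + 1 := ⟨_, rfl⟩
  have hZ0 : 0 < Z := by omega
  have hG0deg : (rd O G0).totalDegree ≤ M' * D := by
    refine (jl_deg_map_le _ _).trans ((jl_deg_le_map _ hinj _).trans ?_)
    rw [hG]
    exact (totalDegree_smul_le _ _).trans hdeg
  have hmZ : m < Z := by
    have h1 : M' * D ≤ M * D := Nat.mul_le_mul_right _ hM
    omega
  choose hfd s hs R G hR hFac hres hfe using hf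
  have hevK : ∀ i k, eval (fun l => algebraMap O K (b l)) (MvPolynomial.map (algebraMap O K) (G i k)) ≠ 0 := by
    intro i k h0
    rw [jl_eval_map] at h0
    have h1 : eval b (G i k) = 0 := hinj (by rw [h0, map_zero])
    exact hres i k (by rw [h1, map_zero])
  have hrow : ∀ i j, ∃ E : PowerSeries (MvPolynomial (Fin n) K),
      sb (fun l => algebraMap O K (b l)) (pderiv (J j) (pd (Λ i) (f i))) =
        sb (fun l => algebraMap O K (b l)) (∏ k, MvPolynomial.map (algebraMap O K) (G i k)) * E ∧
        ∀ S, BC (rE Z (p + 1) r c D) Z S E := by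
    intro i j
    choose v hv1 hv2 using fun k => fac_inv (fun l => algebraMap O K (b l)) (hFac i k) (hevK i k)
    obtain ⟨E, hE1, hE2⟩ := row (fun l => algebraMap O K (b l)) hZ0 (jl_rho_pos c D)
      (jl_iota_pos hZ0 c D) (hs i) (hR i) (fun k => fac_cuts (hFac i k)) v hv1
      (fun k S => hv2 k Z S) (J j :: Λ i)
      (p := p + 1) (by rw [List.length_cons]; exact Nat.succ_le_succ (hΛ i))
    refine ⟨E, ?_, hE2⟩
    rw [← hE1, Pool.Agent.ORB.pd_cons, ← hfe i]
  choose E hE1 hE2 using hrow
  have hdet : sb (fun l => algebraMap O K (b l))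
      (Matrix.of fun i j => pderiv (J j) (pd (Λ i) (f i))).det =
      (∏ i, sb (fun l => algebraMap O K (b l)) (∏ k, MvPolynomial.map (algebraMap O K) (G i k))) *
        (Matrix.of E).det := by
    rw [AlgHom.map_det, ← Matrix.det_mul_column]
    congr 1
    ext1 i j
    rw [AlgHom.mapMatrix_apply, Matrix.map_apply, Matrix.of_apply, Matrix.of_apply,
      Matrix.of_apply, hE1]
  -- the product of the factors over `O`
  obtain ⟨Q0, hQ⟩ : ∃ Q0 : PowerSeries (MvPolynomial (Fin n) O), Q0 = ∏ i, PhS b (∏ k, G i k) :=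
    ⟨_, rfl⟩
  obtain ⟨q, hq⟩ : ∃ q : O, q = ∏ i, ∏ k, eval b (G i k) := ⟨_, rfl⟩
  have hqu : IsUnit q := by
    rw [hq]
    refine Finset.prod_induction _ IsUnit (fun _ _ => IsUnit.mul) isUnit_one fun i _ => ?_
    refine Finset.prod_induction _ IsUnit (fun _ _ => IsUnit.mul) isUnit_one fun k _ => ?_
    exact (IsLocalRing.residue_ne_zero_iff_isUnit _).1 (hres i k)
  have hP : PowerSeries.constantCoeff Q0 = C q := by
    rw [hQ, map_prod, hq, map_prod]
    refine Finset.prod_congr rfl fun i _ => ?_
    rw [jl_const, map_prod]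
  have hQu : IsUnit Q0 := by
    rw [PowerSeries.isUnit_iff_constantCoeff, hP]
    exact hqu.map C
  obtain ⟨V, hV⟩ := hQu.exists_right_inv
  obtain ⟨F, hF⟩ : ∃ F, F = V * PhS b G0 := ⟨_, rfl⟩
  have hQF : Q0 * F = PhS b G0 := by
    rw [hF, ← mul_assoc, hV, one_mul]
  -- over `K`
  have hQK : PowerSeries.map (MvPolynomial.map (algebraMap O K)) Q0 =
      ∏ i, sb (fun l => algebraMap O K (b l)) (∏ k, MvPolynomial.map (algebraMap O K) (G i k)) := by
    rw [hQ, map_prod]
    refine Finset.prod_congr rfl fun i _ => ?_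
    rw [phS_map, map_prod]
    rfl
  have hFK : PowerSeries.map (MvPolynomial.map (algebraMap O K)) F =
      PowerSeries.C (C x) * (Matrix.of E).det := by
    have h1 : PowerSeries.map (MvPolynomial.map (algebraMap O K)) Q0 *
        PowerSeries.map (MvPolynomial.map (algebraMap O K)) F =
        PowerSeries.map (MvPolynomial.map (algebraMap O K)) Q0 *
          (PowerSeries.C (C x) * (Matrix.of E).det) := by
      rw [← map_mul, hQF, phS_map, hG]
      have h2 : PhS (fun i => algebraMap O K (b i))
          (x • (Matrix.of fun i j => pderiv (J j) (pd (Λ i) (f i))).det) =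
          PowerSeries.C (C x) * sb (fun l => algebraMap O K (b l))
            (Matrix.of fun i j => pderiv (J j) (pd (Λ i) (f i))).det := by
        rw [smul_eq_C_mul, map_mul, jl_PhS_C]
        rfl
      rw [h2, hdet, hQK]
      ring
    have h3 : PowerSeries.map (MvPolynomial.map (algebraMap O K)) V *
        PowerSeries.map (MvPolynomial.map (algebraMap O K)) Q0 = 1 := by
      rw [← map_mul, mul_comm, hV, map_one]
    calc PowerSeries.map (MvPolynomial.map (algebraMap O K)) F
        = (PowerSeries.map (MvPolynomial.map (algebraMap O K)) V *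
          PowerSeries.map (MvPolynomial.map (algebraMap O K)) Q0) *
            PowerSeries.map (MvPolynomial.map (algebraMap O K)) F := by rw [h3, one_mul]
      _ = PowerSeries.map (MvPolynomial.map (algebraMap O K)) V *
          (PowerSeries.map (MvPolynomial.map (algebraMap O K)) Q0 *
            (PowerSeries.C (C x) * (Matrix.of E).det)) := by rw [mul_assoc, h1]
      _ = (PowerSeries.map (MvPolynomial.map (algebraMap O K)) V *
          PowerSeries.map (MvPolynomial.map (algebraMap O K)) Q0) *
            (PowerSeries.C (C x) * (Matrix.of E).det) := by rw [mul_assoc]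
      _ = _ := by rw [h3, one_mul]
  -- over the residue field
  have hred : sb (fun i => IsLocalRing.residue O (b i)) (rd O G0) =
      PowerSeries.map (rd O) Q0 * PowerSeries.map (rd O) F := by
    rw [← map_mul, hQF]
    exact (phS_map (IsLocalRing.residue O) b G0).symm
  have hPr : PowerSeries.constantCoeff (PowerSeries.map (rd O) Q0) = C (IsLocalRing.residue O q) := by
    rw [← PowerSeries.coeff_zero_eq_constantCoeff_apply, PowerSeries.coeff_map,
      PowerSeries.coeff_zero_eq_constantCoeff_apply, hP, MvPolynomial.map_C]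
  have hqr : IsLocalRing.residue O q ≠ 0 := (IsLocalRing.residue_ne_zero_iff_isUnit _).2 hqu
  have hlow : PowerSeries.coeff m (sb (fun i => IsLocalRing.residue O (b i)) (rd O G0)) =
      C (IsLocalRing.residue O q) * PowerSeries.coeff m (PowerSeries.map (rd O) F) := by
    rw [hred]
    refine TWX.low_mul hqr hPr fun l hl => ?_
    rw [← hred]
    exact hml l hl
  intro S
  rw [hlow]
  refine Pool.Agent.AOI.Cut.C_mul ?_ _
  rw [PowerSeries.coeff_map]
  refine cut_rd (K := K) ?_
  have h1 := BC.det (S := S) (Matrix.of E) (fun i j => hE2 i j S)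
  have h2 := (BC.C_mul h1 x) m hmZ
  rw [← hFK, PowerSeries.coeff_map] at h2
  refine Pool.Agent.AOI.Cut.mono h2 ?_
  unfold rk
  rw [← hZ]
  refine Nat.mul_le_mul (Nat.factorial_le hM) (Nat.pow_le_pow_right ?_ hM)
  exact Nat.mul_pos hZ0 (jl_rE_pos hZ0 _ _ _ _)

end Pool.Agent.TXL
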