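import Pool.Agent.TXL.Nrm
import Pool.Agent.TXL.Jac
import Pool.Agent.TWX.Cv2
import Pool.Agent.TWX.Fin
import Pool.Agent.FOR.Main
import Pool.Agent.CLO.Prs

/-!
MODULE TXL-Hit (est. 1 h).  The minors of derivatives of leaves are preserved by two copies of the curve.

PLAN.  `hit_two'`: as `TWX.hit_two` (`Pool/Agent/TWX/Cv2.lean`) with the point `(t₀, e₀) ∈ ℕ²` in place of the
generic point: `ψ : MvPolynomial (Fin 5) k →+* Polynomial (MvPolynomial (Fin 2) k)`, `X 0, X 1, X 2, X 3,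
X 4 ↦ C (C t₀), C (C e₀), Polynomial.X, C (X 0), C (X 1)`; `FOR.map_Ps`; the coefficient `m` of
`ψ (aeval (crv2 k n L) J)` is `aeval y (coeff m (sb b J))` by `TWX.coeff_sub`.
`exists_base`: the product of the `g j` is not `0` and, by `FOR.gen`, so is its image under
`aeval (fun i => Ps L (X 0) (X 1) i)` (a product of nonzero elements of a domain); a nonzero polynomial in
`MvPolynomial (Fin 2) k` does not vanish at some point of `ℕ²` (`TWX.small_ne` of `Pool/Agent/TWX/Fin.lean`).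
`c_le_rk`: `rho c D ≤ rk M p r c D` for `M, p > 0` (as `TWX.c_le_rk`: `rho ≤ Z^3 * (rho * iota) ≤ its p-th
power ≤ rE ≤ Z * rE ≤ ..`, `iota ≥ 1`, `Z ≥ 1`).
`hit0`: as `leaf_H1` of `Pool/Agent/TWX/H1.lean`: `M' = 0`: the determinant is `1`, `Pres_one`.  `M' > 0`:
`f i ≠ 0`, `Leaf.normalO O` gives `G i j` with `rd O (G i j) ≠ 0`; `Cuts (rho c D) (rd O (G i j))`
(`fac_cuts`, `cuts_rd`); `exists_base` for all `rd O (G i j)` (index type `Σ i, Fin (s i)`) gives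
`(t₀, e₀) ∈ ℕ²`, `b i = (Ps L t₀ e₀ i : ℕ)` cast to `O`; `residue O (eval b (G i j)) = eval b̄ (rd O (G i j))
≠ 0`; so `LeafO K b r c D (f i)`.  For a normalised `G0`: `jac_lim`, `FOR.gen`, `hit_two'`.
-/

set_option autoImplicit false

namespace Pool.Agent.TXL

open MvPolynomial
open Pool.Agent.AOI (Cut Cuts)
open Pool.Agent.FOR (Ps lev)
open Pool.Agent.ORB (pd Dc)
open Pool.Agent.CLO (RF rd Pres)
open Pool.Agent.TWX (sb crv2)

theorem hit_two' {k : Type*} [Field k] {n L m t₀ e₀ : ℕ} {J : MvPolynomial (Fin n) k}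
    (h : aeval (fun i : Fin n => Ps L (X 0) (X 1) (i : ℕ))
      (PowerSeries.coeff m (sb (fun i : Fin n => ((Ps L t₀ e₀ (i : ℕ) : ℕ) : k)) J)) ≠
        (0 : MvPolynomial (Fin 2) k)) :
    aeval (crv2 k n L) J ≠ 0 := by
  rw [← Pool.Agent.TWX.coeff_sub (A := MvPolynomial (Fin 2) k)] at h
  intro h0
  apply h
  obtain ⟨w, hw⟩ : ∃ w : Fin 5 → Polynomial (MvPolynomial (Fin 2) k),
      w = ![Polynomial.C (C (t₀ : k)), Polynomial.C (C (e₀ : k)),
        Polynomial.X, Polynomial.C (X 0), Polynomial.C (X 1)] := ⟨_, rfl⟩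
  obtain ⟨ψ, hψ⟩ : ∃ ψ : MvPolynomial (Fin 5) k →+* Polynomial (MvPolynomial (Fin 2) k),
      ψ = (aeval w : MvPolynomial (Fin 5) k →ₐ[k] _).toRingHom := ⟨_, rfl⟩
  have hX : ∀ j, ψ (X j) = w j := fun j => by
    rw [hψ]
    exact aeval_X w j
  have hc : ∀ i : Fin n, ψ (crv2 k n L i) =
      Polynomial.C (algebraMap k (MvPolynomial (Fin 2) k) ((Ps L t₀ e₀ (i : ℕ) : ℕ) : k)) +
        Polynomial.X * Polynomial.C (Ps L (X 0) (X 1) (i : ℕ)) := by
    intro i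
    have e1 := FOR.map_Ps ((Polynomial.C.comp (C : k →+* MvPolynomial (Fin 2) k)).comp
      (Nat.castRingHom k)) L t₀ e₀ (i : ℕ)
    have e2 := FOR.map_Ps (Polynomial.C : MvPolynomial (Fin 2) k →+* _) L (X 0) (X 1) (i : ℕ)
    unfold crv2
    rw [map_add, map_mul, FOR.map_Ps ψ, FOR.map_Ps ψ, hX, hX, hX, hX, hX, hw]
    rw [RingHom.comp_apply, RingHom.comp_apply, RingHom.comp_apply, RingHom.comp_apply,
      RingHom.comp_apply, RingHom.comp_apply, Nat.coe_castRingHom] at e1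
    rw [e2, algebraMap_eq, e1]
    rfl
  have h2 := comp_aeval_apply (R := k) (crv2 k n L)
    (aeval w : MvPolynomial (Fin 5) k →ₐ[k] Polynomial (MvPolynomial (Fin 2) k)) J
  rw [h0, map_zero] at h2
  have h3 : (fun i : Fin n => (aeval w : MvPolynomial (Fin 5) k →ₐ[k]
      Polynomial (MvPolynomial (Fin 2) k)) (crv2 k n L i)) = fun i : Fin n =>
      Polynomial.C (algebraMap k (MvPolynomial (Fin 2) k) ((Ps L t₀ e₀ (i : ℕ) : ℕ) : k)) +
        Polynomial.X * Polynomial.C (Ps L (X 0) (X 1) (i : ℕ)) := by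
    funext i
    rw [← hc i, hψ]
    rfl
  rw [h3] at h2
  rw [← h2, Polynomial.coeff_zero]

theorem exists_base {k : Type*} [Field k] [CharZero k] {n w : ℕ} {ι : Type*} [Finite ι]
    (g : ι → MvPolynomial (Fin n) k) (h0 : ∀ j, g j ≠ 0) (hw : ∀ j, Cuts w (g j)) :
    ∃ t₀ e₀ : ℕ, ∀ j, eval (fun i : Fin n => ((Ps (lev (max n w)) t₀ e₀ (i : ℕ) : ℕ) : k)) (g j) ≠ 0 := by
  classical
  obtain ⟨_⟩ := nonempty_fintype ι
  have h1 : (∏ j, aeval (fun i : Fin n => Ps (lev (max n w)) (X 0) (X 1) (i : ℕ)) (g j)) ≠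
      (0 : MvPolynomial (Fin 2) k) :=
    Finset.prod_ne_zero_iff.2 fun j _ => Pool.Agent.FOR.gen (g j) (h0 j) (hw j)
  obtain ⟨s, _, hs⟩ := Pool.Agent.TWX.small_ne h1 le_rfl
  rw [map_prod, Finset.prod_ne_zero_iff] at hs
  refine ⟨s 0, s 1, fun j => ?_⟩
  have h2 := hs j (Finset.mem_univ j)
  intro h3
  apply h2
  have h4 := comp_aeval_apply (R := k)
    (fun i : Fin n => Ps (lev (max n w)) (X 0) (X 1) (i : ℕ))
    (aeval (fun j => (s j : k)) : MvPolynomial (Fin 2) k →ₐ[k] k) (g j)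
  have h5 : (fun i : Fin n => (aeval (fun j => (s j : k)) : MvPolynomial (Fin 2) k →ₐ[k] k)
      (Ps (lev (max n w)) (X 0) (X 1) (i : ℕ))) =
      fun i : Fin n => ((Ps (lev (max n w)) (s 0) (s 1) (i : ℕ) : ℕ) : k) := by
    funext i
    have e1 := FOR.map_Ps (Nat.castRingHom k) (lev (max n w)) (s 0) (s 1) (i : ℕ)
    have e2 := FOR.map_Ps (aeval (fun j => (s j : k)) : MvPolynomial (Fin 2) k →ₐ[k] k).toRingHom
      (lev (max n w)) (X 0) (X 1) (i : ℕ)
    rw [Nat.coe_castRingHom] at e1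
    rw [e1]
    refine e2.trans ?_
    congr 1
    · exact aeval_X _ _
    · exact aeval_X _ _
  rw [h5] at h4
  exact h4.trans h3

theorem rho_le_rk {M p : ℕ} (hM : 0 < M) (hp : 0 < p) (r c D : ℕ) : rho c D ≤ rk M p r c D := by
  unfold rk
  obtain ⟨Z, hZ⟩ : ∃ Z, Z = M * D + 1 := ⟨_, rfl⟩
  rw [← hZ]
  have hZ0 : 0 < Z := by omega
  have hι : 0 < iota Z c D := by
    unfold iota
    exact Nat.mul_pos (pow_pos (Nat.succ_pos _) _) hZ0
  have h1 : rho c D ≤ Z ^ 3 * (rho c D * iota Z c D) :=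
    (Nat.le_mul_of_pos_right _ hι).trans (Nat.le_mul_of_pos_left _ (pow_pos hZ0 3))
  have h2 : Z ^ 3 * (rho c D * iota Z c D) ≤ (Z ^ 3 * (rho c D * iota Z c D)) ^ p :=
    Nat.le_self_pow hp.ne' _
  have h3 : (Z ^ 3 * (rho c D * iota Z c D)) ^ p ≤
      (r + 1) * Z ^ 2 * (Z ^ 3 * (rho c D * iota Z c D)) ^ p :=
    Nat.le_mul_of_pos_left _ (Nat.mul_pos (Nat.succ_pos r) (pow_pos hZ0 2))
  have h4 : (r + 1) * Z ^ 2 * (Z ^ 3 * (rho c D * iota Z c D)) ^ p ≤ rE Z p r c D := by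
    unfold rE
    exact Nat.le_mul_of_pos_left _ (pow_pos (Nat.succ_pos D) p)
  have h5 : rE Z p r c D ≤ Z * rE Z p r c D := Nat.le_mul_of_pos_left _ hZ0
  have h6 : Z * rE Z p r c D ≤ (Z * rE Z p r c D) ^ M := Nat.le_self_pow hM.ne' _
  have h7 : (Z * rE Z p r c D) ^ M ≤ M.factorial * (Z * rE Z p r c D) ^ M :=
    Nat.le_mul_of_pos_left _ (Nat.factorial_pos M)
  exact h1.trans (h2.trans (h3.trans (h4.trans (h5.trans (h6.trans h7)))))

theorem hit0 {n : ℕ} {O : Type*} [CommRing O] [IsDomain O] [ValuationRing O] {K : Type*} [Field K]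
    [Algebra O K] [IsFractionRing O K] [CharZero (RF O)] {M M' p r c D : ℕ} (hM : M' ≤ M)
    (a : Fin M' → MvPolynomial (Fin n) K)
    (ha : ∀ i, a i ∈ Dc {f : MvPolynomial (Fin n) K | Leaf r c D f} p) (J : Fin M' → Fin n)
    (hdet : (Matrix.of fun i j => pderiv (J j) (a i)).det ≠ 0) :
    Pres O (aeval (crv2 (RF O) n (lev (max n (rk M (p + 1) r c D)))))
      (Matrix.of fun i j => pderiv (J j) (a i)).det := by
  rcases Nat.eq_zero_or_pos M' with rfl | hpos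
  · rw [Matrix.det_isEmpty]
    exact Pool.Agent.CLO.Pres_one
  choose Λ hΛ f hf haf using ha
  have hf0 : ∀ i, f i ≠ 0 := by
    intro i h0
    apply hdet
    refine Matrix.det_eq_zero_of_row_eq_zero i fun j => ?_
    rw [Matrix.of_apply, haf i, h0, Pool.Agent.ORB.pd_zero, map_zero]
  have hfL : ∀ i, Leaf r c D (f i) := hf
  choose s hs R G hR hG hrd hfe using fun i => Leaf.normalO O (hfL i) (hf0 i)
  have hle : rho c D ≤ rk M (p + 1) r c D :=
    rho_le_rk (lt_of_lt_of_le hpos hM) (Nat.succ_pos p) r c D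
  obtain ⟨t₀, e₀, hte⟩ := exists_base (k := RF O) (w := rk M (p + 1) r c D)
    (fun x : (Σ i : Fin M', Fin (s i)) => rd O (G x.1 x.2)) (fun x => hrd x.1 x.2)
    (fun x S => (cuts_rd (fac_cuts (hG x.1 x.2)) S).mono hle)
  obtain ⟨L, hL⟩ : ∃ L, L = lev (max n (rk M (p + 1) r c D)) := ⟨_, rfl⟩
  rw [← hL] at hte ⊢
  obtain ⟨b, hb⟩ : ∃ b : Fin n → O, b = fun i : Fin n => ((Ps L t₀ e₀ (i : ℕ) : ℕ) : O) := ⟨_, rfl⟩
  have hbr : (fun i => IsLocalRing.residue O (b i)) =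
      fun i : Fin n => ((Ps L t₀ e₀ (i : ℕ) : ℕ) : RF O) := by
    funext i
    rw [hb]
    exact map_natCast _ _
  have hLO : ∀ i, LeafO K b r c D (f i) := by
    intro i
    refine ⟨(hf i).1, s i, hs i, R i, G i, hR i, hG i, fun j => ?_, hfe i⟩
    have h1 : IsLocalRing.residue O (eval b (G i j)) =
        eval (fun i => IsLocalRing.residue O (b i)) (rd O (G i j)) := by
      rw [eval_map]
      exact eval₂_comp_left (IsLocalRing.residue O) (RingHom.id O) b (G i j)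
    rw [h1, hbr]
    exact hte ⟨i, j⟩
  intro G0 x hx hG0 hrd0
  have hG0' : MvPolynomial.map (algebraMap O K) G0 =
      x • (Matrix.of fun i j => pderiv (J j) (pd (Λ i) (f i))).det := by
    rw [hG0]
    congr 2
    ext1 i j
    rw [Matrix.of_apply, Matrix.of_apply, haf i]
  obtain ⟨m, h1, h2⟩ := jac_lim b hM f hLO Λ hΛ J G0 x hG0' hrd0
  rw [hbr] at h1 h2
  have h3 := Pool.Agent.FOR.gen _ h1 h2
  rw [← hL] at h3
  exact hit_two' h3

end Pool.Agent.TXL
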