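import Pool.Agent.TXL.Core
import Pool.Agent.TXL.Dg

/-!
# TXL: the statement (becomes a file of Results/MP_e2be99_lc)
-/

set_option autoImplicit false

namespace Pool.Agent.TXL.AnyOrderLimits

open MvPolynomial
open Pool.Agent.CLK (EtotK)

theorem result.{u, v, x} (n κ k w r c D Δ D' : ℕ) :
    (points n κ k w r c D Δ D').card ≤
      (deg n (rkT κ k w r c D Δ) * D' + 1) ^ (9 + 2 * EtotK κ k w Δ) ∧
    ∀ (F : Type x) [Field F] [CharZero F] (m : ℕ) (P : Fin m → MvPolynomial (Fin n) F),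
      (∀ j, P j ≠ 0 ∧ LimitLeaves.{u, v, x} n κ k w r c D Δ (P j)) →
      ∀ g : MvPolynomial (Fin n) F, g ∣ ∏ j, P j → g.totalDegree ≤ D' →
        ∃ x ∈ points n κ k w r c D Δ D', eval (fun i => ((x i : ℕ) : F)) g ≠ 0 := by
  refine ⟨?_, fun F _ _ m P hP g hg hD => grid (limit_prod κ k w r c D Δ P hP g hg) hD⟩
  have h := card_pts n (FOR.lev (max n (rkT κ k w r c D Δ))) (2 + EtotK κ k w Δ)
    (deg n (rkT κ k w r c D Δ) * D')
  have e : 5 + 2 * (2 + EtotK κ k w Δ) = 9 + 2 * EtotK κ k w Δ := by ring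
  rwa [e] at h

end Pool.Agent.TXL.AnyOrderLimits
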