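import Pool.Agent.TXL.Defs
import Pool.Agent.TWX.Nrm
import Pool.Agent.SPE.Nrm

/-!
MODULE TXL-Nrm (est. 0.6 h).  Normal form of the leaves over the valuation ring.

PLAN.  `normal`: copy of `TWX.Leaf.normal` (`Pool/Agent/TWX/Nrm.lean`) with `Fac c D` instead of `Cuts c`
(the factors which are constants are moved to `R`).
`normalO`: `SPE.normalise (g j)`: `map (G j) = x j • g j`, `x j ≠ 0`, a coefficient of `G j` is `1`, so
`rd O (G j) ≠ 0`; `Fac c D (x j • g j)`: `x • aeval h p = aeval h (C x * p)` (`totalDegree (C x * p) ≤`);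
`R' = C ((∏ j, x j)⁻¹) * R` (`Cut.C_mul`).
-/

set_option autoImplicit false

namespace Pool.Agent.TXL

open MvPolynomial
open Pool.Agent.AOI (Cut Cuts)
open Pool.Agent.CLO (RF rd)

private theorem nrm_deg {K : Type*} [Field K] {n : ℕ} {ι : Type*} (t : Finset ι)
    (g : ι → MvPolynomial (Fin n) K) (hg : ∀ j ∈ t, g j ≠ 0) :
    (∏ j ∈ t, g j).totalDegree = ∑ j ∈ t, (g j).totalDegree := by
  classical
  induction t using Finset.induction_on with
  | empty => rw [Finset.prod_empty, Finset.sum_empty, totalDegree_one]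
  | insert a t ha ih =>
    rw [Finset.prod_insert ha, Finset.sum_insert ha, totalDegree_mul_of_isDomain
      (hg a (Finset.mem_insert_self a t))
      (Finset.prod_ne_zero_iff.2 fun j hj => hg j (Finset.mem_insert_of_mem hj)),
      ih fun j hj => hg j (Finset.mem_insert_of_mem hj)]

theorem Leaf.normal {K : Type*} [Field K] {n r c D : ℕ} {f : MvPolynomial (Fin n) K}
    (hf : Leaf r c D f) (h0 : f ≠ 0) :
    ∃ s ≤ D, ∃ (R : MvPolynomial (Fin n) K) (g : Fin s → MvPolynomial (Fin n) K),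
      Cuts r R ∧ (∀ j, Fac c D (g j)) ∧ (∀ j, g j ≠ 0) ∧ f = R * ∏ j, g j := by
  classical
  obtain ⟨hD, s, R, g, hR, hg, rfl⟩ := hf
  have hR0 : R ≠ 0 := left_ne_zero_of_mul h0
  have hg0 : ∀ j, g j ≠ 0 := fun j =>
    Finset.prod_ne_zero_iff.1 (right_ne_zero_of_mul h0) j (Finset.mem_univ j)
  obtain ⟨t, ht⟩ : ∃ t : Finset (Fin s), t = Finset.univ.filter fun j => (g j).totalDegree ≠ 0 :=
    ⟨_, rfl⟩
  have hmem : ∀ j, j ∈ t ↔ (g j).totalDegree ≠ 0 := by
    intro j
    rw [ht, Finset.mem_filter]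
    exact ⟨fun h => h.2, fun h => ⟨Finset.mem_univ j, h⟩⟩
  have hC : ∀ j, ∃ a : K, j ∉ t → g j = C a := by
    intro j
    by_cases hj : j ∈ t
    · exact ⟨0, fun h => absurd hj h⟩
    · rw [hmem, not_not] at hj
      exact ⟨_, fun _ => totalDegree_eq_zero_iff_eq_C.1 hj⟩
  choose a ha using hC
  have hsplit : R * ∏ j, g j = (C (∏ j ∈ tᶜ, a j) * R) * ∏ j ∈ t, g j := by
    rw [← Finset.prod_mul_prod_compl t g, map_prod,
      Finset.prod_congr rfl (fun j hj => ha j (Finset.mem_compl.1 hj))]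
    ring
  have hcard : t.card ≤ D := by
    refine le_trans ?_ hD
    rw [hsplit, totalDegree_mul_of_isDomain]
    · rw [nrm_deg t g fun j _ => hg0 j]
      refine le_trans ?_ (Nat.le_add_left _ _)
      rw [Finset.card_eq_sum_ones]
      refine Finset.sum_le_sum fun j hj => ?_
      have := (hmem j).1 hj
      omega
    · intro h
      rw [hsplit, h, zero_mul] at h0
      exact h0 rfl
    · exact Finset.prod_ne_zero_iff.2 fun j _ => hg0 j
  refine ⟨t.card, hcard, C (∏ j ∈ tᶜ, a j) * R, fun k => g (t.equivFin.symm k), ?_, ?_, ?_, ?_⟩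
  · exact fun S => (hR S).C_mul _
  · exact fun k => hg _
  · exact fun k => hg0 _
  · rw [hsplit, t.equivFin.symm.prod_comp (fun j : t => g j), Finset.prod_coe_sort]

private theorem fac_smul {K : Type*} [Field K] {n c D : ℕ} {g : MvPolynomial (Fin n) K}
    (hg : Fac c D g) (x : K) : Fac c D (x • g) := by
  obtain ⟨p, h, hp, hh, rfl⟩ := hg
  refine ⟨x • p, h, (totalDegree_smul_le x p).trans hp, hh, ?_⟩
  rw [map_smul]

theorem Leaf.normalO (O : Type*) [CommRing O] [IsDomain O] [ValuationRing O] {K : Type*} [Field K]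
    [Algebra O K] [IsFractionRing O K] {n r c D : ℕ} {f : MvPolynomial (Fin n) K}
    (hf : Leaf r c D f) (h0 : f ≠ 0) :
    ∃ s ≤ D, ∃ (R : MvPolynomial (Fin n) K) (G : Fin s → MvPolynomial (Fin n) O),
      Cuts r R ∧ (∀ j, Fac c D (MvPolynomial.map (algebraMap O K) (G j))) ∧
        (∀ j, rd O (G j) ≠ 0) ∧ f = R * ∏ j, MvPolynomial.map (algebraMap O K) (G j) := by
  obtain ⟨s, hs, R, g, hR, hg, hg0, rfl⟩ := hf.normal h0
  have hN : ∀ j, ∃ (x : K) (g' : MvPolynomial (Fin n) O), x ≠ 0 ∧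
      MvPolynomial.map (algebraMap O K) g' = x • g j ∧ ∃ ν, g'.coeff ν = 1 := fun j =>
    SPE.normalise (O := O) (g j) (hg0 j)
  choose x G hx hG hν using hN
  refine ⟨s, hs, C (∏ j, x j)⁻¹ * R, G, fun S => (hR S).C_mul _, ?_, ?_, ?_⟩
  · intro j
    rw [hG]
    exact fac_smul (hg j) _
  · intro j hj
    obtain ⟨ν, hν⟩ := hν j
    have h1 : (rd O (G j)).coeff ν = 0 := by rw [hj, coeff_zero]
    rw [coeff_map, hν, map_one] at h1
    exact one_ne_zero h1
  · have h1 : ∏ j, MvPolynomial.map (algebraMap O K) (G j) = C (∏ j, x j) * ∏ j, g j := by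
      rw [map_prod, ← Finset.prod_mul_distrib]
      refine Finset.prod_congr rfl fun j _ => ?_
      rw [hG, smul_eq_C_mul]
    have h2 : (C (∏ j, x j)⁻¹ : MvPolynomial (Fin n) K) * C (∏ j, x j) = 1 := by
      rw [← C_mul, inv_mul_cancel₀ (Finset.prod_ne_zero_iff.2 fun j _ => hx j), C_1]
    rw [h1]
    calc R * ∏ j, g j = (C (∏ j, x j)⁻¹ * C (∏ j, x j)) * (R * ∏ j, g j) := by rw [h2, one_mul]
      _ = _ := by ring

end Pool.Agent.TXL
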