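import Pool.Agent.TXL.Hit
import Pool.Agent.TXL.FinL
import Pool.Agent.CLO.Fin

/-!
MODULE TXL-Num.  Natural parameters which are good for finitely many minors.
-/

set_option autoImplicit false

namespace Pool.Agent.TXL

open MvPolynomial
open Pool.Agent.AOI (Cut Cuts)
open Pool.Agent.FOR (Ps lev)
open Pool.Agent.ORB (pd Dc PhiP)
open Pool.Agent.ORA (cvx Psi)
open Pool.Agent.CLO (RF rd Pres H1c)
open Pool.Agent.TWX (crv2)

theorem crvN_cast {k : Type*} [Field k] (n L : ℕ) (s : Fin 5 → ℕ) (i : Fin n) :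
    eval (fun j => (s j : k)) (crv2 k n L i) = ((crvN L s (i : ℕ) : ℕ) : k) := by
  have h1 : ∀ a b : Fin 5, eval (fun j => (s j : k)) (Ps L (X a) (X b) (i : ℕ)) =
      ((Ps L (s a) (s b) (i : ℕ) : ℕ) : k) := by
    intro a b
    have h2 := FOR.map_Ps (Nat.castRingHom k) L (s a) (s b) (i : ℕ)
    have h3 := FOR.map_Ps (eval (fun j => (s j : k)) : MvPolynomial (Fin 5) k →+* k) L
      (X a) (X b) (i : ℕ)
    simp only [eval_X, eq_natCast] at h2 h3
    exact h3.trans h2.symm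
  unfold crv2 crvN
  rw [map_add, map_mul, eval_X, h1, h1]
  push_cast
  rfl

variable {n : ℕ} {O : Type*} [CommRing O] [IsDomain O] [ValuationRing O] {K : Type*} [Field K]
  [Algebra O K] [IsFractionRing O K] [CharZero (RF O)]

private theorem num_ne {g : MvPolynomial (Fin n) O} {ν : Fin n →₀ ℕ} (h : g.coeff ν = 1) :
    rd O g ≠ 0 := by
  intro h0
  have h1 := congrArg (MvPolynomial.coeff ν) h0
  rw [MvPolynomial.coeff_map, h, map_one, MvPolynomial.coeff_zero] at h1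
  exact one_ne_zero h1

theorem exists_nat {L : ℕ} {S : Set (MvPolynomial (Fin n) K)} (hS : S.Finite)
    (h : ∀ P ∈ S, P ≠ 0 ∧ Pres O (aeval (crv2 (RF O) n L)) P) :
    ∃ s : Fin 5 → ℕ, ∀ P ∈ S,
      Pres O (aeval (fun i : Fin n => ((crvN L s (i : ℕ) : ℕ) : RF O))) P := by
  classical
  have hG : ∀ P ∈ S, ∃ (x : K) (G : MvPolynomial (Fin n) O), x ≠ 0 ∧
      MvPolynomial.map (algebraMap O K) G = x • P ∧ rd O G ≠ 0 := by
    intro P hP
    obtain ⟨x, G, hx, hG, ν, hν⟩ := SPE.normalise (O := O) P (h P hP).1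
    exact ⟨x, G, hx, hG, num_ne hν⟩
  choose! x G hx hGm hr using hG
  have hF : (∏ P ∈ hS.toFinset, aeval (crv2 (RF O) n L) (rd O (G P))) ≠ 0 :=
    Finset.prod_ne_zero_iff.2 fun P hP => by
      have hP' := hS.mem_toFinset.1 hP
      exact (h P hP').2 (G P) (x P) (hx P hP') (hGm P hP') (hr P hP')
  obtain ⟨s, -, hs⟩ := TWX.small_ne hF le_rfl
  rw [map_prod] at hs
  refine ⟨s, fun P hP => CLO.Pres_of_exists (G P) (x P) (hx P hP) (hGm P hP) ?_⟩
  have h1 := Finset.prod_ne_zero_iff.1 hs P (hS.mem_toFinset.2 hP)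
  have h2 : (fun i : Fin n => ((crvN L s (i : ℕ) : ℕ) : RF O)) =
      fun i => eval (fun j => (s j : RF O)) (crv2 (RF O) n L i) :=
    funext fun i => (crvN_cast n L s i).symm
  rw [h2]
  have h4 := comp_aeval_apply (R := RF O) (crv2 (RF O) n L)
    (aeval (fun j => (s j : RF O)) : MvPolynomial (Fin 5) (RF O) →ₐ[RF O] RF O) (rd O (G P))
  intro h5
  apply h1
  exact h4.trans h5

private theorem num_minor_finite {B : Set (MvPolynomial (Fin n) K)} (hB : B.Finite) (M : ℕ) :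
    {P : MvPolynomial (Fin n) K | ∃ M' ≤ M, ∃ a : Fin M' → MvPolynomial (Fin n) K,
      (∀ i, a i ∈ B) ∧ ∃ J : Fin M' → Fin n,
        P = (Matrix.of fun i j => pderiv (J j) (a i)).det}.Finite := by
  have h1 : ∀ M' : ℕ, ((fun q : (Fin M' → MvPolynomial (Fin n) K) × (Fin M' → Fin n) =>
      (Matrix.of fun i j => pderiv (q.2 j) (q.1 i)).det) ''
        ((Set.pi Set.univ fun _ => B) ×ˢ Set.univ)).Finite := fun M' =>
    ((Set.Finite.pi fun _ => hB).prod Set.finite_univ).image _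
  refine ((Set.finite_Iic M).biUnion fun M' _ => h1 M').subset ?_
  rintro P ⟨M', hM', a, ha, J, rfl⟩
  exact Set.mem_biUnion (Set.mem_Iic.2 hM') ⟨(a, J), ⟨fun i _ => ha i, Set.mem_univ _⟩, rfl⟩

private theorem num_psi {F : Type*} [Field F] (b : Fin n → F) (μ e : ℕ)
    (f : MvPolynomial (Fin n) F) (hf : aeval b f ≠ 0) :
    Psi (fun j => X j + C (b j)) μ e f ≠ 0 := by
  rw [Pool.Agent.ORA.Psi_apply]
  refine Pool.Agent.ORB.PhiP_ne_zero _ _ _ _ (fun _ => 0) (fun _ => 0) (fun _ => 0) ?_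
  have h1 : Pool.Agent.ORB.val (cvx F n μ)
      (fun _ : Fin n => eval (fun _ : Fin 0 => (0 : F)) (0 : MvPolynomial (Fin 0) F))
      (fun _ : Fin e => (0 : F)) (fun _ : Fin e => (0 : F)) = fun _ => 0 := by
    funext v
    unfold Pool.Agent.ORB.val
    simp
  rw [h1]
  have h2 := comp_aeval_apply (R := F) (fun j : Fin n => (X j + C (b j) : MvPolynomial (Fin n) F))
    (aeval (fun _ : Fin n => (0 : F)) : MvPolynomial (Fin n) F →ₐ[F] F) f
  have h3 : (fun i : Fin n => (aeval (fun _ : Fin n => (0 : F)) : MvPolynomial (Fin n) F →ₐ[F] F)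
      (X i + C (b i))) = b := by
    funext i
    rw [map_add, aeval_X, aeval_C, zero_add]
    rfl
  rw [h3] at h2
  intro h4
  exact hf (h2.symm.trans h4)

theorem exists_h1c {A : Set (MvPolynomial (Fin n) K)} (hA : A.Finite) {r c D : ℕ}
    (hL : ∀ g ∈ A, Leaf r c D g) (M p : ℕ) :
    ∃ s : Fin 5 → ℕ, ∀ μ e : ℕ,
      H1c (O := O) (fun i : Fin n =>
        X i + C (((crvN (lev (max n (rk M (p + 1) r c D))) s (i : ℕ) : ℕ) : O))) μ e (Dc A p) M := by
  set L := lev (max n (rk M (p + 1) r c D)) with hLd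
  have hAL : A ⊆ {f : MvPolynomial (Fin n) K | Leaf r c D f} := fun g hg => hL g hg
  have hDc : Dc A p ⊆ Dc {f : MvPolynomial (Fin n) K | Leaf r c D f} p := by
    rintro f ⟨Λ, hΛ, b, hb, rfl⟩
    exact ⟨Λ, hΛ, b, hAL hb, rfl⟩
  have hfin := num_minor_finite (dc_finite hA p) M
  obtain ⟨s, hs⟩ := exists_nat (O := O) (L := L)
    (S := {P : MvPolynomial (Fin n) K | ∃ M' ≤ M, ∃ a : Fin M' → MvPolynomial (Fin n) K,
      (∀ i, a i ∈ Dc A p) ∧ ∃ J : Fin M' → Fin n,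
        P = (Matrix.of fun i j => pderiv (J j) (a i)).det} ∩ {P | P ≠ 0})
    (hfin.subset Set.inter_subset_left) (by
      rintro P ⟨⟨M', hM', a, ha, J, rfl⟩, hP0⟩
      exact ⟨hP0, hit0 hM' a (fun i => hDc (ha i)) J hP0⟩)
  refine ⟨s, fun μ e M' hM' a ha J hdet => ?_⟩
  have h1 := hs _ ⟨⟨M', hM', a, ha, J, rfl⟩, hdet⟩
  refine CLO.Pres_mono (fun f hf => ?_) h1
  have h2 : (fun j : Fin n => rd O (X j + C (((crvN L s (j : ℕ) : ℕ) : O)))) =
      fun j : Fin n => X j + C (((crvN L s (j : ℕ) : ℕ) : RF O)) := by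
    funext j
    rw [map_add, map_X, map_C, map_natCast]
  rw [h2]
  exact num_psi _ μ e f hf

end Pool.Agent.TXL
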