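import Pool.Agent.TWX.Row
import Pool.Agent.TXL.Defs

/-!
MODULE TXL-Row.  Derivatives of a leaf, divided by the product of its factors (as `Pool/Agent/TWX/Row.lean`).
-/

set_option autoImplicit false

namespace Pool.Agent.TXL

open MvPolynomial
open Pool.Agent.AOI (Cut Cuts)
open Pool.Agent.ORB (pd)
open Pool.Agent.TWX (sb BC Tm)

variable {L : Type*} [Field L] {n : ℕ}

private theorem tm_row' (b : Fin n → L) {s r ρ ι p Z : ℕ} (hZ : 0 < Z) (hρ : 0 < ρ) (hι : 0 < ι)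
    {g : Fin s → MvPolynomial (Fin n) L} (v : Fin s → PowerSeries (MvPolynomial (Fin n) L))
    (hv : ∀ j, sb b (g j) * v j = 1) (hvB : ∀ j S, BC ι Z S (v j)) {q : ℕ} (hq : q ≤ p)
    {f : MvPolynomial (Fin n) L} (hf : Tm r ρ g q f) :
    ∃ E : PowerSeries (MvPolynomial (Fin n) L), sb b f = sb b (∏ j, g j) * E ∧
      ∀ S, BC ((r + 1) * Z ^ 2 * (Z ^ 3 * (ρ * ι)) ^ p) Z S E := by
  obtain ⟨R', g', I, hR', hg', hI, hgg, rfl⟩ := hf
  refine ⟨sb b R' * ∏ j ∈ I, (sb b (g' j) * v j), ?_, fun S => ?_⟩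
  · rw [map_mul, map_prod, map_prod, ← Finset.prod_mul_prod_compl I (fun j => sb b (g' j)),
      ← Finset.prod_mul_prod_compl I (fun j => sb b (g j)), Finset.prod_mul_distrib]
    have h1 : (∏ j ∈ I, sb b (g j)) * ∏ j ∈ I, v j = 1 := by
      rw [← Finset.prod_mul_distrib]
      exact Finset.prod_eq_one fun j _ => hv j
    have h2 : ∏ j ∈ Iᶜ, sb b (g' j) = ∏ j ∈ Iᶜ, sb b (g j) :=
      Finset.prod_congr rfl fun j hj => by rw [hgg j (Finset.mem_compl.1 hj)]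
    rw [h2]
    calc sb b R' * ((∏ j ∈ I, sb b (g' j)) * ∏ j ∈ Iᶜ, sb b (g j))
        = sb b R' * ((∏ j ∈ I, sb b (g' j)) * ∏ j ∈ Iᶜ, sb b (g j)) *
          ((∏ j ∈ I, sb b (g j)) * ∏ j ∈ I, v j) := by rw [h1, mul_one]
      _ = _ := by ring
  · have h1 : BC (r * Z) Z S (sb b R') := Pool.Agent.TWX.bc_sb b (hR' S) Z
    have h2 : ∀ j ∈ I, BC (Z * ((ρ * Z) * ι)) Z S (sb b (g' j) * v j) := fun j _ =>
      (Pool.Agent.TWX.bc_sb b (hg' j S) Z).mul (hvB j S)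
    have h3 := BC.prod I _ h2
    refine (h1.mul h3).mono ?_
    have h4 : Z * (Z * ((ρ * Z) * ι)) = Z ^ 3 * (ρ * ι) := by ring
    rw [h4]
    have h5 : 1 ≤ Z ^ 3 * (ρ * ι) := Nat.mul_pos (pow_pos hZ _) (Nat.mul_pos hρ hι)
    have h6 : (Z ^ 3 * (ρ * ι)) ^ I.card ≤ (Z ^ 3 * (ρ * ι)) ^ p := Nat.pow_le_pow_right h5 (hI.trans hq)
    calc Z * (r * Z * (Z ^ 3 * (ρ * ι)) ^ I.card) = r * Z ^ 2 * (Z ^ 3 * (ρ * ι)) ^ I.card := by ring
      _ ≤ (r + 1) * Z ^ 2 * (Z ^ 3 * (ρ * ι)) ^ p :=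
        Nat.mul_le_mul (Nat.mul_le_mul_right _ (Nat.le_succ r)) h6

theorem row (b : Fin n → L) {s r ρ ι D p Z : ℕ} (hZ : 0 < Z) (hρ : 0 < ρ) (hι : 0 < ι) (hs : s ≤ D)
    {R : MvPolynomial (Fin n) L} {g : Fin s → MvPolynomial (Fin n) L} (hR : Cuts r R)
    (hg : ∀ j, Cuts ρ (g j)) (v : Fin s → PowerSeries (MvPolynomial (Fin n) L))
    (hv : ∀ j, sb b (g j) * v j = 1) (hvB : ∀ j S, BC ι Z S (v j)) (Λ : List (Fin n))
    (hΛ : Λ.length ≤ p) :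
    ∃ E : PowerSeries (MvPolynomial (Fin n) L),
      sb b (pd Λ (R * ∏ j, g j)) = sb b (∏ j, g j) * E ∧
        ∀ S, BC ((D + 1) ^ p * ((r + 1) * Z ^ 2 * (Z ^ 3 * (ρ * ι)) ^ p)) Z S E := by
  obtain ⟨F, hF, hFs⟩ := Pool.Agent.TWX.pd_terms hR hg Λ
  choose E hE1 hE2 using fun i => tm_row' b hZ hρ hι v hv hvB hΛ (hF i)
  refine ⟨∑ i, E i, ?_, fun S => ?_⟩
  · rw [hFs, map_sum, Finset.mul_sum]
    exact Finset.sum_congr rfl fun i _ => hE1 i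
  · refine (BC.sum Finset.univ E fun i _ => hE2 i S).mono ?_
    rw [Finset.card_univ, Fintype.card_fin]
    exact Nat.mul_le_mul_right _ ((Nat.pow_le_pow_left (Nat.add_le_add_right hs 1) _).trans
      (Nat.pow_le_pow_right (Nat.succ_pos D) hΛ))

end Pool.Agent.TXL
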